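import Pool.Agent.Lib.MP_74fee8_an.U.FB

set_option autoImplicit false

open Filter Topology

universe uA uB uC

namespace Pool.Agent.Lib.MP_74fee8_an.U

section Basic

variable {A : Type uA} [NonUnitalRing A] [Module ℂ A] [IsScalarTower ℂ A A] [SMulCommClass ℂ A A]
  [UniformSpace A] [IsUniformAddGroup A] [IsTopologicalRing A] [ContinuousSMul ℂ A]
  [CompleteSpace A] [T2Space A]

omit [IsScalarTower ℂ A A] [SMulCommClass ℂ A A] [IsUniformAddGroup A] [IsTopologicalRing A]
  [ContinuousSMul ℂ A] [CompleteSpace A] [T2Space A] in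
/-- One can replace a countable family of submultiplicative seminorms by an increasing one. -/
theorem exists_mono (p : ℕ → Seminorm ℂ A) (hp : WithSeminorms p)
    (hs : ∀ n x y, p n (x * y) ≤ p n x * p n y) :
    ∃ q : ℕ → Seminorm ℂ A, WithSeminorms q ∧ Monotone q ∧
      ∀ n x y, q n (x * y) ≤ q n x * q n y := by
  refine ⟨fun n => (Finset.Iic n).sup p, hp.partial_sups, ?_, ?_⟩
  · intro m n hmn
    exact Finset.sup_mono (Finset.Iic_subset_Iic.mpr hmn)
  · intro n x y
    refine Seminorm.finset_sup_apply_le ?_ ?_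
    · positivity
    · intro i hi
      refine (hs i x y).trans ?_
      exact mul_le_mul (Seminorm.le_finset_sup_apply hi) (Seminorm.le_finset_sup_apply hi)
        (apply_nonneg _ _) (apply_nonneg _ _)

omit [IsScalarTower ℂ A A] [SMulCommClass ℂ A A] [IsUniformAddGroup A] [IsTopologicalRing A]
  [ContinuousSMul ℂ A] [CompleteSpace A] [T2Space A] in
theorem nhds_zero_basis {q : ℕ → Seminorm ℂ A} (hq : WithSeminorms q) (hm : Monotone q)
    {U : Set A} (hU : U ∈ 𝓝 (0 : A)) : ∃ n, ∃ ε > 0, ∀ x, q n x < ε → x ∈ U := by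
  obtain ⟨s, r, hr, hs⟩ := (hq.mem_nhds_iff 0 U).1 hU
  refine ⟨s.sup id, r, hr, fun x hx => hs ?_⟩
  rw [Seminorm.mem_ball, sub_zero]
  refine lt_of_le_of_lt ?_ hx
  refine Seminorm.finset_sup_apply_le (apply_nonneg _ _) ?_
  intro i hi
  exact hm (Finset.le_sup (f := id) hi) x

omit [IsScalarTower ℂ A A] [SMulCommClass ℂ A A] [IsUniformAddGroup A] [IsTopologicalRing A]
  [ContinuousSMul ℂ A] [CompleteSpace A] [T2Space A] in
theorem ball_mem_nhds {q : ℕ → Seminorm ℂ A} (hq : WithSeminorms q) (n : ℕ) {ε : ℝ}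
    (hε : 0 < ε) : {x : A | q n x < ε} ∈ 𝓝 (0 : A) := by
  rw [hq.mem_nhds_iff]
  refine ⟨{n}, ε, hε, fun x hx => ?_⟩
  rw [Finset.sup_singleton, Seminorm.mem_ball, sub_zero] at hx
  exact hx

omit [IsScalarTower ℂ A A] [SMulCommClass ℂ A A] [IsTopologicalRing A]
  [ContinuousSMul ℂ A] [T2Space A] in
/-- Sequences with rapidly decreasing steps converge. -/
theorem exists_lim {q : ℕ → Seminorm ℂ A} (hq : WithSeminorms q) (s : ℕ → A)
    (h : ∀ i, ∃ N, ∀ k, N ≤ k → q i (s (k + 1) - s k) ≤ (1 / 2 : ℝ) ^ k) :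
    ∃ x, Tendsto s atTop (𝓝 x) := by
  apply cauchySeq_tendsto_of_complete
  have key : ∀ i N, (∀ k, N ≤ k → q i (s (k + 1) - s k) ≤ (1 / 2 : ℝ) ^ k) →
      ∀ m, N ≤ m → ∀ d, q i (s (m + d) - s m) ≤ 2 * (1 / 2 : ℝ) ^ m - 2 * (1 / 2) ^ (m + d) := by
    intro i N hN m hm d
    induction d with
    | zero => simp
    | succ d ih =>
      have h1 : s (m + (d + 1)) - s m = (s (m + d + 1) - s (m + d)) + (s (m + d) - s m) := by
        rw [← add_assoc]; abel
      rw [h1]
      refine (map_add_le_add _ _ _).trans ?_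
      have h2 := hN (m + d) (by omega)
      have h3 : (1 / 2 : ℝ) ^ (m + (d + 1)) = (1 / 2) ^ (m + d) * (1 / 2) := by
        rw [← add_assoc, pow_succ]
      rw [h3]
      linarith
  rw [cauchySeq_iff_tendsto, uniformity_eq_comap_nhds_zero A, tendsto_comap_iff]
  rw [hq.tendsto_nhds]
  intro i ε hε
  obtain ⟨N, hN⟩ := h i
  obtain ⟨M, hM⟩ : ∃ M : ℕ, 4 * (1 / 2 : ℝ) ^ M < ε := by
    obtain ⟨M, hM⟩ := exists_pow_lt_of_lt_one (show (0 : ℝ) < ε / 4 by positivity)
      (show (1 / 2 : ℝ) < 1 by norm_num)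
    exact ⟨M, by linarith⟩
  rw [eventually_atTop]
  refine ⟨(max N M, max N M), ?_⟩
  rintro ⟨a, b⟩ ⟨ha, hb⟩
  simp only at ha hb
  simp only [Function.comp_apply, Prod.map_apply, sub_zero]
  set m := max N M with hmdef
  have hNm : N ≤ m := le_max_left _ _
  have hMm : M ≤ m := le_max_right _ _
  obtain ⟨d, rfl⟩ := Nat.exists_eq_add_of_le ha
  obtain ⟨e, rfl⟩ := Nat.exists_eq_add_of_le hb
  have h1 := key i N hN m hNm d
  have h2 := key i N hN m hNm e
  have h3 : s (m + e) - s (m + d) = (s (m + e) - s m) - (s (m + d) - s m) := by abel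
  rw [h3]
  have h4 := map_sub_le_add (q i) (s (m + e) - s m) (s (m + d) - s m)
  have h5 : (1 / 2 : ℝ) ^ m ≤ (1 / 2) ^ M := pow_le_pow_of_le_one (by norm_num) (by norm_num) hMm
  have h6 : (0 : ℝ) < (1 / 2) ^ (m + d) := by positivity
  have h7 : (0 : ℝ) < (1 / 2) ^ (m + e) := by positivity
  linarith

omit [IsScalarTower ℂ A A] [SMulCommClass ℂ A A] [IsTopologicalRing A]
  [ContinuousSMul ℂ A] [T2Space A] in
theorem baireSpace {q : ℕ → Seminorm ℂ A} (hq : WithSeminorms q) : BaireSpace A := by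
  have h1 : FirstCountableTopology A := hq.firstCountableTopology
  have : (uniformity A).IsCountablyGenerated := IsUniformAddGroup.uniformity_countably_generated
  infer_instance

end Basic

end Pool.Agent.Lib.MP_74fee8_an.U
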