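import Pool.Agent.Lib.MP_74fee8_an.U.Basic

set_option autoImplicit false

open Filter Topology

universe uA uB uC

namespace Pool.Agent.Lib.MP_74fee8_an.U

/-- The separating space of a map `T : A → B` of topological groups: all limits in `B` of values
of `T` along null families in `A`. -/
def Sep {A : Type uA} {B : Type uB} [TopologicalSpace A] [Zero A] [TopologicalSpace B]
    (T : A → B) : Set B :=
  {b | ∀ U ∈ 𝓝 (0 : A), ∀ V ∈ 𝓝 b, ∃ x ∈ U, T x ∈ V}

section FSpace

variable {𝕜 : Type uC} [RCLike 𝕜]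

variable {A : Type uA} [AddCommGroup A] [Module 𝕜 A] [UniformSpace A] [IsUniformAddGroup A]
  [ContinuousSMul 𝕜 A] [CompleteSpace A]
variable {B : Type uB} [AddCommGroup B] [Module 𝕜 B] [UniformSpace B] [IsUniformAddGroup B]
  [ContinuousSMul 𝕜 B] [CompleteSpace B]

omit [CompleteSpace B] in
theorem almost_open {p : ℕ → Set A} (hp : FB p) (T : A →ₗ[𝕜] B) {w : ℕ → Set B} (hw : FB w)
    (n : ℕ) : ∃ U ∈ 𝓝 (0 : A), U ⊆ closure {x : A | T x ∈ w n} := by
  have hB : BaireSpace A := hp.baireSpace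
  obtain ⟨k, hk⟩ : ∃ k : ℕ,
      (interior (closure {x : A | (((k : 𝕜) + 1)⁻¹) • T x ∈ w (n + 1)})).Nonempty := by
    apply nonempty_interior_of_iUnion_of_closed
    · intro k
      exact isClosed_closure
    · rw [Set.eq_univ_iff_forall]
      intro x
      have h1 : Tendsto (fun k : ℕ => (((k : 𝕜) + 1)⁻¹) • T x) atTop (𝓝 ((0 : 𝕜) • T x)) := by
        apply Tendsto.smul_const
        have h2 : Tendsto (fun k : ℕ => (1 / ((k : 𝕜) + 1))) atTop (𝓝 0) :=
          tendsto_one_div_add_atTop_nhds_zero_nat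
        simpa using h2
      rw [zero_smul] at h1
      obtain ⟨k, hk⟩ := (h1.eventually (hw.nhds (n + 1))).exists
      exact Set.mem_iUnion.2 ⟨k, subset_closure hk⟩
  obtain ⟨x0, hx0⟩ := hk
  have hKc : ((k : 𝕜) + 1) ≠ 0 := Nat.cast_add_one_ne_zero k
  refine ⟨{x | x0 + ((k : 𝕜) + 1) • x ∈
    interior (closure {x : A | (((k : 𝕜) + 1)⁻¹) • T x ∈ w (n + 1)})}, ?_, ?_⟩
  · have hc : Continuous fun x : A => x0 + ((k : 𝕜) + 1) • x :=
      continuous_const.add (continuous_const_smul _)
    apply hc.continuousAt.preimage_mem_nhds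
    simp only [smul_zero, add_zero]
    exact isOpen_interior.mem_nhds hx0
  · intro x hx
    have h1 := interior_subset hx
    have h2 := interior_subset hx0
    have h3 : (((k : 𝕜) + 1)⁻¹) • ((x0 + ((k : 𝕜) + 1) • x) - x0) ∈
        closure {x : A | T x ∈ w n} := by
      have hc : Continuous (Function.uncurry fun a b : A => (((k : 𝕜) + 1)⁻¹) • (a - b)) :=
        (continuous_fst.sub continuous_snd).const_smul _
      refine map_mem_closure₂ (f := fun a b : A => (((k : 𝕜) + 1)⁻¹) • (a - b)) hc h1 h2 ?_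
      intro a ha b hb
      simp only [Set.mem_ofPred_eq] at ha hb ⊢
      rw [map_smul, map_sub, smul_sub, sub_eq_add_neg]
      exact hw.add _ _ ha _ (hw.neg _ _ hb)
    have h4 : (((k : 𝕜) + 1)⁻¹) • ((x0 + ((k : 𝕜) + 1) • x) - x0) = x := by
      rw [add_sub_cancel_left, smul_smul, inv_mul_cancel₀ hKc, one_smul]
    rwa [h4] at h3

/-- Modulo the separating space a linear map between complete metrizable spaces is continuous. -/
theorem dist_sep_F {p : ℕ → Set A} (hp : FB p) {w : ℕ → Set B} (hw : FB w)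
    (T : A →ₗ[𝕜] B) (m : ℕ) :
    ∀ᶠ z in 𝓝 (0 : A), ∃ s ∈ Sep T, T z - s ∈ w m := by
  have hU : ∀ j : ℕ, ∃ U ∈ 𝓝 (0 : A), U ⊆ closure {x : A | T x ∈ w (m + 1 + j + 1)} :=
    fun j => almost_open hp T hw (m + 1 + j + 1)
  choose U hU0 hUs using hU
  set G : ℕ → Set A := fun j => U j ∩ p j with hG
  have hGn : ∀ j, G j ∈ 𝓝 (0 : A) := fun j => inter_mem (hU0 j) (hp.nhds j)
  have step : ∀ j z, z ∈ G j → ∃ x, T x ∈ w (m + 1 + j + 1) ∧ z - x ∈ G (j + 1) := by
    intro j z hz
    have h1 := hUs j hz.1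
    rw [mem_closure_iff_nhds] at h1
    have h2 : {x | z - x ∈ G (j + 1)} ∈ 𝓝 z := by
      have hc : Continuous fun x : A => z - x := continuous_const.sub continuous_id
      apply hc.continuousAt.preimage_mem_nhds
      simp only [sub_self]
      exact hGn (j + 1)
    obtain ⟨x, hx1, hx2⟩ := h1 _ h2
    exact ⟨x, hx2, hx1⟩
  choose! x hx1 hx2 using step
  filter_upwards [hGn 0] with z0 hz0
  let z : ℕ → A := fun n => Nat.rec z0 (fun j z => z - x j z) n
  have hz1 : ∀ j, z (j + 1) = z j - x j (z j) := fun j => rfl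
  have hz00 : z 0 = z0 := rfl
  have hzG : ∀ j, z j ∈ G j := by
    intro j
    induction j with
    | zero => exact hz0
    | succ j ih => rw [hz1]; exact hx2 j _ ih
  have hstep : ∀ k, T (z0 - z (k + 1)) - T (z0 - z k) = T (x k (z k)) := by
    intro k
    rw [← map_sub, hz1]; congr 1; abel
  obtain ⟨y, hy⟩ : ∃ y, Tendsto (fun j => T (z0 - z j)) atTop (𝓝 y) := by
    apply hw.exists_lim
    intro k
    rw [hstep]
    exact hw.mono (by omega) (hx1 k _ (hzG k))
  have hb : ∀ j, T (z0 - z j) ∈ w (m + 1) := by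
    intro j
    have h1 := hw.sum_mem (fun j => T (z0 - z j)) (m + 1) (fun k => by
      rw [hstep]
      exact hx1 k _ (hzG k)) j 0
    simp only [zero_add, hz00, sub_self, map_zero, sub_zero, add_zero] at h1
    exact h1
  have hy2 : y ∈ w m := by
    apply hw.closure_subset m
    exact mem_closure_of_tendsto hy (Eventually.of_forall hb)
  have hz_lim : Tendsto z atTop (𝓝 0) := hp.tendsto (fun j => (hzG j).2)
  have hTz : Tendsto (fun j => T (z j)) atTop (𝓝 (T z0 - y)) := by
    have h1 : (fun j => T (z j)) = fun j => T z0 - T (z0 - z j) := by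
      funext j
      rw [← map_sub]; congr 1; abel
    rw [h1]
    exact tendsto_const_nhds.sub hy
  have hsep : T z0 - y ∈ Sep T := by
    intro U' hU' V hV
    obtain ⟨j, hj1, hj2⟩ := ((hz_lim.eventually hU').and (hTz.eventually hV)).exists
    exact ⟨z j, hj1, hj2⟩
  exact ⟨T z0 - y, hsep, by rw [sub_sub_cancel]; exact hy2⟩

/-- The closed graph theorem for complete metrizable topological vector spaces, in terms of the
separating space. -/
theorem continuous_of_sep {p : ℕ → Set A} (hp : FB p) {w : ℕ → Set B} (hw : FB w)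
    (T : A →ₗ[𝕜] B) (h : ∀ b ∈ Sep T, b = 0) : Continuous T := by
  apply continuous_of_continuousAt_zero T
  rw [ContinuousAt, map_zero]
  intro U hU
  obtain ⟨m, hm⟩ := hw.basis U hU
  show ∀ᶠ z in 𝓝 (0 : A), T z ∈ U
  filter_upwards [dist_sep_F hp hw T m] with z hz
  obtain ⟨s, hs, hs2⟩ := hz
  rw [h s hs, sub_zero] at hs2
  exact hm hs2

end FSpace

section ClosedGraph

variable {A : Type uA} [NonUnitalRing A] [Module ℂ A] [IsScalarTower ℂ A A] [SMulCommClass ℂ A A]
  [UniformSpace A] [IsUniformAddGroup A] [IsTopologicalRing A] [ContinuousSMul ℂ A]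
  [CompleteSpace A] [T2Space A]
variable {B : Type uB} [NonUnitalRing B] [Module ℂ B] [IsScalarTower ℂ B B] [SMulCommClass ℂ B B]
  [UniformSpace B] [IsUniformAddGroup B] [IsTopologicalRing B] [ContinuousSMul ℂ B]
  [CompleteSpace B] [T2Space B]

omit [IsScalarTower ℂ A A] [SMulCommClass ℂ A A] [IsTopologicalRing A] [T2Space A]
  [IsScalarTower ℂ B B] [SMulCommClass ℂ B B]
  [IsTopologicalRing B] [T2Space B] in
/-- Modulo the separating space a linear map between Frechet spaces is continuous. -/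
theorem dist_sep_two {p : ℕ → Set A} (hp : FB p)
    {q : ℕ → Seminorm ℂ B} (hq : WithSeminorms q) 
    (T : A →ₗ[ℂ] B) (m : ℕ) :
    ∀ᶠ z in 𝓝 (0 : A), ∃ s ∈ Sep T, q m (T z - s) ≤ 2 := by
  have hfc : FirstCountableTopology B := hq.firstCountableTopology
  obtain ⟨w, hw⟩ := exists_FB (A := B)
  obtain ⟨n, hn⟩ := hw.basis _ (ball_mem_nhds hq m (show (0 : ℝ) < 2 by norm_num))
  filter_upwards [dist_sep_F hp hw T n] with z hz
  obtain ⟨s, hs, hs2⟩ := hz
  have h1 : q m (T z - s) < 2 := hn hs2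
  exact ⟨s, hs, h1.le⟩

end ClosedGraph

end Pool.Agent.Lib.MP_74fee8_an.U
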