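import Pool.Agent.Lib.MP_74fee8_an.U.LevelNull

set_option autoImplicit false

universe uA uB uC

namespace Pool.Agent.Lib.MP_74fee8_an.U

theorem isUnit_one_sub_swap {R : Type uA} [Ring R] {a b : R} (h : IsUnit (1 - a * b)) :
    IsUnit (1 - b * a) := by
  obtain ⟨u, hu⟩ := h
  have h1 : (1 - a * b) * (↑u⁻¹ : R) = 1 := by rw [← hu, Units.mul_inv]
  have h2 : (↑u⁻¹ : R) * (1 - a * b) = 1 := by rw [← hu, Units.inv_mul]
  refine ⟨⟨1 - b * a, 1 + b * (↑u⁻¹ : R) * a, ?_, ?_⟩, rfl⟩
  · have h3 : (1 - b * a) * (1 + b * (↑u⁻¹ : R) * a) =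
        1 + b * ((1 - a * b) * (↑u⁻¹ : R) - 1) * a := by
      noncomm_ring
    rw [h3, h1, sub_self, mul_zero, zero_mul, add_zero]
  · have h3 : (1 + b * (↑u⁻¹ : R) * a) * (1 - b * a) =
        1 + b * ((↑u⁻¹ : R) * (1 - a * b) - 1) * a := by
      noncomm_ring
    rw [h3, h2, sub_self, mul_zero, zero_mul, add_zero]

/-- quasi-regular elements -/
def QR {C : Type uC} [NonUnitalRing C] (x : C) : Prop := ∃ c : C, x + c = x * c ∧ x + c = c * x

section QR

variable {C : Type uC} [NonUnitalRing C]

theorem qr_iff {K : Type uA} [CommRing K] [Module K C] [IsScalarTower K C C] [SMulCommClass K C C]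
    (x : C) : QR x ↔ IsUnit (1 - (Unitization.inr x : Unitization K C)) := by
  have key : ∀ y z : C, (1 - (Unitization.inr y : Unitization K C)) * (1 - Unitization.inr z) =
      1 - Unitization.inr (y + z - y * z) := by
    intro y z
    rw [sub_mul, one_mul, mul_sub, mul_one, ← Unitization.inr_mul, Unitization.inr_sub,
      Unitization.inr_add]
    abel
  have key2 : ∀ y : C, (1 - (Unitization.inr y : Unitization K C)) = 1 → y = 0 := by
    intro y hy
    have h1 : (Unitization.inr y : Unitization K C) = 0 := by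
      rw [sub_eq_self] at hy
      exact hy
    apply Unitization.inr_injective (R := K)
    rw [h1, Unitization.inr_zero]
  constructor
  · rintro ⟨c, h1, h2⟩
    refine ⟨⟨1 - Unitization.inr x, 1 - Unitization.inr c, ?_, ?_⟩, rfl⟩
    · rw [key, h1, sub_self, Unitization.inr_zero, sub_zero]
    · rw [key, add_comm, h2, sub_self, Unitization.inr_zero, sub_zero]
  · rintro ⟨u, hu⟩
    have h1 : (1 - Unitization.inr x) * (↑u⁻¹ : Unitization K C) = 1 := by
      rw [← hu, Units.mul_inv]
    have h2 : (↑u⁻¹ : Unitization K C) * (1 - Unitization.inr x) = 1 := by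
      rw [← hu, Units.inv_mul]
    obtain ⟨w, hw⟩ : ∃ w, w = (↑u⁻¹ : Unitization K C) := ⟨_, rfl⟩
    rw [← hw] at h1 h2
    have h3 : w.fst = 1 := by
      have h5 := congrArg (fun z : Unitization K C => z.fst) h1
      simp only [Unitization.fst_mul, Unitization.fst_one, sub_eq_add_neg, Unitization.fst_add,
        Unitization.fst_neg, Unitization.fst_inr, neg_zero, add_zero, one_mul] at h5
      exact h5
    have h4 : w = 1 - Unitization.inr (-w.snd) := by
      ext
      · simp [h3]
      · simp
    rw [h4, key] at h1 h2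
    refine ⟨-w.snd, ?_, ?_⟩
    · exact sub_eq_zero.1 (key2 _ h1)
    · rw [add_comm]
      exact sub_eq_zero.1 (key2 _ h2)

theorem inr_mul_inr_mul {K : Type uA} [CommRing K] [Module K C] [IsScalarTower K C C]
    [SMulCommClass K C C] (a b : C) (u : Unitization K C) :
    ∃ c : C, (Unitization.inr (a * b) : Unitization K C) * u = Unitization.inr (a * c) := by
  refine ⟨u.fst • b + b * u.snd, ?_⟩
  ext
  · simp
  · simp [mul_add, mul_smul_comm, mul_assoc]

theorem exists_inr_mul {K : Type uA} [CommRing K] [Module K C] [IsScalarTower K C C]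
    [SMulCommClass K C C] (a : C) (y z : Unitization K C) :
    ∃ c : C, y * Unitization.inr a * z = Unitization.inr c := by
  refine ⟨(y * Unitization.inr a * z).snd, ?_⟩
  ext
  · simp
  · simp

theorem qr_add (K : Type uA) [CommRing K] [Module K C] [IsScalarTower K C C]
    [SMulCommClass K C C] {a a' : C} (h : ∀ b, QR (a * b)) (h' : ∀ b, QR (a' * b)) (b : C) :
    QR ((a + a') * b) := by
  rw [qr_iff (K := K)]
  obtain ⟨u, hu⟩ := (qr_iff (K := K) _).1 (h b)
  have h1 : (↑u : Unitization K C) * (↑u⁻¹ : Unitization K C) = 1 := Units.mul_inv u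
  have h2 : (1 - (Unitization.inr ((a + a') * b) : Unitization K C)) =
      (↑u : Unitization K C) * (1 - (↑u⁻¹ : Unitization K C) * Unitization.inr (a' * b)) := by
    rw [mul_sub, ← mul_assoc, h1, mul_one, one_mul, hu, add_mul, Unitization.inr_add]
    abel
  rw [h2]
  refine u.isUnit.mul (isUnit_one_sub_swap (R := Unitization K C) ?_)
  obtain ⟨c, hc⟩ := inr_mul_inr_mul (K := K) a' b (↑u⁻¹ : Unitization K C)
  rw [hc]
  exact (qr_iff (K := K) _).1 (h' _)

/-- If the Jacobson radical of the unitization is zero, then the algebra is semisimple in the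
sense of quasi-regular elements. -/
theorem ss_of_jacobson {K : Type uA} [Field K] [Module K C] [IsScalarTower K C C]
    [SMulCommClass K C C] (h : Ring.jacobson (Unitization K C) = ⊥) : SS C := by
  intro a ha
  have h0 : ∀ b, QR (a * b) := ha
  have h1 : (Unitization.inr a : Unitization K C) ∈ Ideal.jacobson (⊥ : Ideal (Unitization K C)) := by
    rw [Ideal.mem_jacobson_iff]
    intro y
    have h2 : IsUnit (1 + y * (Unitization.inr a : Unitization K C)) := by
      have h3 : IsUnit (1 - (Unitization.inr a : Unitization K C) * (-y)) := by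
        obtain ⟨t, ht⟩ : ∃ t, t = (Unitization.inr a : Unitization K C) * (-y) := ⟨_, rfl⟩
        obtain ⟨c, hc⟩ := exists_inr_mul (K := K) a (-y) (-y)
        have h4 : (1 - t) * (1 + t) = 1 - Unitization.inr (a * c) := by
          rw [Unitization.inr_mul, ← hc, mul_assoc (-y), ← mul_assoc, ← ht, mul_add, mul_one,
            sub_mul, one_mul]
          abel
        have h6 : Commute (1 - t) (1 + t) :=
          ((Commute.one_left _).sub_left ((Commute.one_right t).add_right (Commute.refl t)))
        have h7 : IsUnit ((1 - t) * (1 + t)) := by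
          rw [h4]
          exact (qr_iff (K := K) _).1 (h0 c)
        rw [← ht]
        exact ((h6.isUnit_mul_iff).1 h7).1
      have h5 := isUnit_one_sub_swap h3
      rwa [neg_mul, sub_neg_eq_add] at h5
    obtain ⟨u, hu⟩ := h2
    refine ⟨(↑u⁻¹ : Unitization K C), ?_⟩
    have h3 : (↑u⁻¹ : Unitization K C) * (1 + y * (Unitization.inr a : Unitization K C)) = 1 := by
      rw [← hu, Units.inv_mul]
    rw [mul_add, mul_one, ← mul_assoc] at h3
    rw [add_comm, h3, sub_self]
    exact Ideal.zero_mem _
  rw [Ideal.jacobson_bot, h, Submodule.mem_bot] at h1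
  apply Unitization.inr_injective (R := K)
  rw [h1, Unitization.inr_zero]

end QR

end Pool.Agent.Lib.MP_74fee8_an.U
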