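import Pool.Agent.Lib.MP_74fee8_an.U.Full
import Pool.Agent.Lib.MP_74fee8_an.U.Quasi

set_option autoImplicit false

open Filter Topology

universe uA uB uC

namespace Pool.Agent.Lib.MP_74fee8_an.U

/-- The complexification of a real algebra. -/
def Cx (A : Type uA) : Type uA := A × A

namespace Cx

section Alg

variable {A : Type uA}

/-- constructor -/
def mk (x y : A) : Cx A := (x, y)

/-- real part -/
def re (z : Cx A) : A := z.1

/-- imaginary part -/
def im (z : Cx A) : A := z.2

@[simp] theorem re_mk (x y : A) : (mk x y).re = x := rfl
@[simp] theorem im_mk (x y : A) : (mk x y).im = y := rfl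

theorem ext' {z w : Cx A} (h1 : z.re = w.re) (h2 : z.im = w.im) : z = w := Prod.ext h1 h2

instance [AddCommGroup A] : AddCommGroup (Cx A) := inferInstanceAs (AddCommGroup (A × A))

@[simp] theorem re_add [AddCommGroup A] (z w : Cx A) : (z + w).re = z.re + w.re := rfl
@[simp] theorem im_add [AddCommGroup A] (z w : Cx A) : (z + w).im = z.im + w.im := rfl
@[simp] theorem re_zero [AddCommGroup A] : (0 : Cx A).re = 0 := rfl
@[simp] theorem im_zero [AddCommGroup A] : (0 : Cx A).im = 0 := rfl
@[simp] theorem re_neg [AddCommGroup A] (z : Cx A) : (-z).re = -z.re := rfl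
@[simp] theorem im_neg [AddCommGroup A] (z : Cx A) : (-z).im = -z.im := rfl
@[simp] theorem re_sub [AddCommGroup A] (z w : Cx A) : (z - w).re = z.re - w.re := rfl
@[simp] theorem im_sub [AddCommGroup A] (z w : Cx A) : (z - w).im = z.im - w.im := rfl

instance [NonUnitalRing A] : Mul (Cx A) :=
  ⟨fun z w => mk (z.re * w.re - z.im * w.im) (z.re * w.im + z.im * w.re)⟩

@[simp] theorem re_mul [NonUnitalRing A] (z w : Cx A) :
    (z * w).re = z.re * w.re - z.im * w.im := rfl
@[simp] theorem im_mul [NonUnitalRing A] (z w : Cx A) :
    (z * w).im = z.re * w.im + z.im * w.re := rfl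

instance [NonUnitalRing A] : NonUnitalRing (Cx A) :=
  { (inferInstance : AddCommGroup (Cx A)), (inferInstance : Mul (Cx A)) with
    left_distrib := fun a b c => by
      apply ext'
      · simp only [re_mul, re_add, im_add, mul_add]; abel
      · simp only [im_mul, re_add, im_add, mul_add]; abel
    right_distrib := fun a b c => by
      apply ext'
      · simp only [re_mul, re_add, im_add, add_mul]; abel
      · simp only [im_mul, re_add, im_add, add_mul]; abel
    zero_mul := fun a => by
      apply ext'
      · simp
      · simp
    mul_zero := fun a => by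
      apply ext'
      · simp
      · simp
    mul_assoc := fun a b c => by
      apply ext'
      · simp only [re_mul, im_mul, sub_mul, mul_sub, add_mul, mul_add, mul_assoc]; abel
      · simp only [re_mul, im_mul, sub_mul, mul_sub, add_mul, mul_add, mul_assoc]; abel }

instance [AddCommGroup A] [Module ℝ A] : SMul ℂ (Cx A) :=
  ⟨fun c z => mk (c.re • z.re - c.im • z.im) (c.re • z.im + c.im • z.re)⟩

@[simp] theorem re_smul [AddCommGroup A] [Module ℝ A] (c : ℂ) (z : Cx A) :
    (c • z).re = c.re • z.re - c.im • z.im := rfl
@[simp] theorem im_smul [AddCommGroup A] [Module ℝ A] (c : ℂ) (z : Cx A) :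
    (c • z).im = c.re • z.im + c.im • z.re := rfl

instance [AddCommGroup A] [Module ℝ A] : Module ℂ (Cx A) where
  one_smul z := by apply ext' <;> simp
  mul_smul c d z := by
    apply ext'
    · simp only [re_smul, im_smul, Complex.mul_re, Complex.mul_im, sub_smul, add_smul, smul_sub,
        smul_add, mul_smul]
      abel
    · simp only [re_smul, im_smul, Complex.mul_re, Complex.mul_im, sub_smul, add_smul, smul_sub,
        smul_add, mul_smul]
      abel
  smul_zero c := by apply ext' <;> simp
  smul_add c z w := by
    apply ext'
    · simp only [re_smul, re_add, im_add, smul_add]; abel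
    · simp only [im_smul, re_add, im_add, smul_add]; abel
  add_smul c d z := by
    apply ext'
    · simp only [re_smul, re_add, Complex.add_re, Complex.add_im, add_smul]; abel
    · simp only [im_smul, im_add, Complex.add_re, Complex.add_im, add_smul]; abel
  zero_smul z := by apply ext' <;> simp

instance [NonUnitalRing A] [Module ℝ A] [IsScalarTower ℝ A A] [SMulCommClass ℝ A A] :
    IsScalarTower ℂ (Cx A) (Cx A) where
  smul_assoc c z w := by
    apply ext'
    · simp only [smul_eq_mul, re_mul, im_mul, re_smul, im_smul, sub_mul, add_mul, smul_mul_assoc,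
        smul_sub, smul_add]
      abel
    · simp only [smul_eq_mul, re_mul, im_mul, re_smul, im_smul, sub_mul, add_mul, smul_mul_assoc,
        smul_sub, smul_add]
      abel

instance [NonUnitalRing A] [Module ℝ A] [IsScalarTower ℝ A A] [SMulCommClass ℝ A A] :
    SMulCommClass ℂ (Cx A) (Cx A) where
  smul_comm c z w := by
    apply ext'
    · simp only [smul_eq_mul, re_mul, im_mul, re_smul, im_smul, mul_sub, mul_add, mul_smul_comm,
        smul_sub, smul_add]
      abel
    · simp only [smul_eq_mul, re_mul, im_mul, re_smul, im_smul, mul_sub, mul_add, mul_smul_comm,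
        smul_sub, smul_add]
      abel

end Alg

section Top

variable {A : Type uA}

instance [UniformSpace A] : UniformSpace (Cx A) := inferInstanceAs (UniformSpace (A × A))
instance [AddCommGroup A] [UniformSpace A] [IsUniformAddGroup A] : IsUniformAddGroup (Cx A) :=
  inferInstanceAs (IsUniformAddGroup (A × A))
instance [UniformSpace A] [CompleteSpace A] : CompleteSpace (Cx A) :=
  inferInstanceAs (CompleteSpace (A × A))
instance [UniformSpace A] [T2Space A] : T2Space (Cx A) := inferInstanceAs (T2Space (A × A))
instance [UniformSpace A] [FirstCountableTopology A] : FirstCountableTopology (Cx A) :=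
  inferInstanceAs (FirstCountableTopology (A × A))

theorem continuous_re [UniformSpace A] : Continuous (re : Cx A → A) :=
  (continuous_fst : Continuous (Prod.fst : A × A → A))
theorem continuous_im [UniformSpace A] : Continuous (im : Cx A → A) :=
  (continuous_snd : Continuous (Prod.snd : A × A → A))
theorem continuous_mk [UniformSpace A] {X : Type uC} [TopologicalSpace X] {f g : X → A}
    (hf : Continuous f) (hg : Continuous g) : Continuous (fun x => mk (f x) (g x)) := by
  have h1 : Continuous (fun x => ((f x, g x) : A × A)) := hf.prodMk hg
  exact h1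

instance [NonUnitalRing A] [UniformSpace A] [IsUniformAddGroup A] [IsTopologicalRing A] :
    IsTopologicalRing (Cx A) where
  continuous_add := continuous_add
  continuous_mul := by
    have h1 : Continuous (fun z : Cx A × Cx A => z.1.re) := continuous_re.comp continuous_fst
    have h2 : Continuous (fun z : Cx A × Cx A => z.1.im) := continuous_im.comp continuous_fst
    have h3 : Continuous (fun z : Cx A × Cx A => z.2.re) := continuous_re.comp continuous_snd
    have h4 : Continuous (fun z : Cx A × Cx A => z.2.im) := continuous_im.comp continuous_snd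
    exact continuous_mk ((h1.mul h3).sub (h2.mul h4)) ((h1.mul h4).add (h2.mul h3))
  continuous_neg := continuous_neg

instance [AddCommGroup A] [Module ℝ A] [UniformSpace A] [IsUniformAddGroup A]
    [ContinuousSMul ℝ A] : ContinuousSMul ℂ (Cx A) where
  continuous_smul := by
    have h1 : Continuous (fun z : ℂ × Cx A => z.1.re) := Complex.continuous_re.comp continuous_fst
    have h2 : Continuous (fun z : ℂ × Cx A => z.1.im) := Complex.continuous_im.comp continuous_fst
    have h3 : Continuous (fun z : ℂ × Cx A => z.2.re) := continuous_re.comp continuous_snd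
    have h4 : Continuous (fun z : ℂ × Cx A => z.2.im) := continuous_im.comp continuous_snd
    exact continuous_mk ((h1.smul h3).sub (h2.smul h4)) ((h1.smul h4).add (h2.smul h3))

end Top

end Cx

end Pool.Agent.Lib.MP_74fee8_an.U
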