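import Pool.Agent.Lib.MP_74fee8_an.U.Cx

set_option autoImplicit false

open Filter Topology

universe uA uB uC

namespace Pool.Agent.Lib.MP_74fee8_an.U

namespace Cx

section Semi

variable {A : Type uA} [NonUnitalRing A] [Module ℝ A]

/-- the real norm on the complexification -/
noncomputable def n0 (p : Seminorm ℝ A) (z : Cx A) : ℝ := p z.re + p z.im

theorem n0_nonneg (p : Seminorm ℝ A) (z : Cx A) : 0 ≤ n0 p z :=
  add_nonneg (apply_nonneg p _) (apply_nonneg p _)

theorem n0_add (p : Seminorm ℝ A) (z w : Cx A) : n0 p (z + w) ≤ n0 p z + n0 p w := by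
  have h1 := map_add_le_add p z.re w.re
  have h2 := map_add_le_add p z.im w.im
  simp only [n0, re_add, im_add]
  linarith

theorem n0_mul {p : Seminorm ℝ A} (hp : ∀ x y, p (x * y) ≤ p x * p y) (z w : Cx A) :
    n0 p (z * w) ≤ n0 p z * n0 p w := by
  have h1 := map_sub_le_add p (z.re * w.re) (z.im * w.im)
  have h2 := map_add_le_add p (z.re * w.im) (z.im * w.re)
  have h3 := hp z.re w.re
  have h4 := hp z.im w.im
  have h5 := hp z.re w.im
  have h6 := hp z.im w.re
  simp only [n0, re_mul, im_mul]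
  have h7 : (p z.re + p z.im) * (p w.re + p w.im) =
      p z.re * p w.re + p z.im * p w.im + (p z.re * p w.im + p z.im * p w.re) := by ring
  rw [h7]
  linarith

theorem n0_smul_le (p : Seminorm ℝ A) (c : ℂ) (z : Cx A) : n0 p (c • z) ≤ 2 * ‖c‖ * n0 p z := by
  have h1 := map_sub_le_add p (c.re • z.re) (c.im • z.im)
  have h2 := map_add_le_add p (c.re • z.im) (c.im • z.re)
  simp only [map_smul_eq_mul, Real.norm_eq_abs] at h1 h2
  simp only [n0, re_smul, im_smul]
  have h3 := Complex.abs_re_le_norm c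
  have h4 := Complex.abs_im_le_norm c
  have h5 := apply_nonneg p z.re
  have h6 := apply_nonneg p z.im
  have h7 : |c.re| * p z.re + |c.im| * p z.im + (|c.re| * p z.im + |c.im| * p z.re) =
      (|c.re| + |c.im|) * (p z.re + p z.im) := by ring
  have h8 : (|c.re| + |c.im|) * (p z.re + p z.im) ≤ (2 * ‖c‖) * (p z.re + p z.im) :=
    mul_le_mul_of_nonneg_right (by linarith) (by linarith)
  linarith

theorem n0_real_smul (p : Seminorm ℝ A) (r : ℝ) (hr : 0 ≤ r) (z : Cx A) :
    n0 p ((r : ℂ) • z) = r * n0 p z := by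
  simp only [n0, re_smul, im_smul, Complex.ofReal_re, Complex.ofReal_im, zero_smul, sub_zero,
    add_zero, map_smul_eq_mul, Real.norm_of_nonneg hr]
  ring

theorem bdd (p : Seminorm ℝ A) (z : Cx A) :
    BddAbove (Set.range fun c : {c : ℂ // ‖c‖ ≤ 1} => n0 p (c.1 • z)) := by
  refine ⟨2 * n0 p z, ?_⟩
  rintro _ ⟨c, rfl⟩
  refine (n0_smul_le p c.1 z).trans ?_
  have h1 := c.2
  have h2 := n0_nonneg p z
  have h3 : 2 * ‖c.1‖ * n0 p z ≤ 2 * 1 * n0 p z :=
    mul_le_mul_of_nonneg_right (by linarith) h2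
  linarith

instance : Nonempty {c : ℂ // ‖c‖ ≤ 1} := ⟨⟨1, by simp⟩⟩

/-- the complex seminorm on the complexification -/
noncomputable def semi (p : Seminorm ℝ A) : Seminorm ℂ (Cx A) :=
  Seminorm.ofSMulLE (fun z => ⨆ c : {c : ℂ // ‖c‖ ≤ 1}, n0 p (c.1 • z))
    (by simp [n0])
    (by
      intro z w
      apply ciSup_le
      intro c
      rw [smul_add]
      exact (n0_add p _ _).trans (add_le_add (le_ciSup (bdd p z) c) (le_ciSup (bdd p w) c)))
    (by
      intro r z
      apply ciSup_le
      intro c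
      by_cases hr : r = 0
      · subst hr
        simp [n0]
      have hr' : (‖r‖ : ℂ) ≠ 0 := by exact_mod_cast norm_ne_zero_iff.2 hr
      have h1 : c.1 • r • z = ((‖r‖ : ℝ) : ℂ) • ((c.1 * (r / (‖r‖ : ℂ))) • z) := by
        rw [smul_smul, smul_smul]
        congr 1
        field_simp
      have h2 : ‖c.1 * (r / (‖r‖ : ℂ))‖ ≤ 1 := by
        rw [norm_mul, norm_div, Complex.norm_real, norm_norm, div_self (norm_ne_zero_iff.2 hr),
          mul_one]
        exact c.2
      rw [h1, n0_real_smul p _ (norm_nonneg r)]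
      exact mul_le_mul_of_nonneg_left (le_ciSup (bdd p z) ⟨_, h2⟩) (norm_nonneg r))

theorem semi_apply (p : Seminorm ℝ A) (z : Cx A) :
    semi p z = ⨆ c : {c : ℂ // ‖c‖ ≤ 1}, n0 p (c.1 • z) := rfl

theorem n0_le_semi (p : Seminorm ℝ A) (z : Cx A) : n0 p z ≤ semi p z := by
  rw [semi_apply]
  have h1 := le_ciSup (bdd p z) ⟨1, by simp⟩
  simpa using h1

theorem semi_le (p : Seminorm ℝ A) (z : Cx A) : semi p z ≤ 2 * n0 p z := by
  rw [semi_apply]
  apply ciSup_le
  intro c
  refine (n0_smul_le p c.1 z).trans ?_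
  have h1 := c.2
  have h2 := n0_nonneg p z
  have h3 : 2 * ‖c.1‖ * n0 p z ≤ 2 * 1 * n0 p z :=
    mul_le_mul_of_nonneg_right (by linarith) h2
  linarith

theorem semi_mul [IsScalarTower ℝ A A] [SMulCommClass ℝ A A] {p : Seminorm ℝ A}
    (hp : ∀ x y, p (x * y) ≤ p x * p y) (z w : Cx A) :
    semi p (z * w) ≤ semi p z * semi p w := by
  rw [semi_apply p (z * w)]
  apply ciSup_le
  intro c
  rw [← smul_mul_assoc]
  refine (n0_mul hp _ _).trans ?_
  have h1 : n0 p (c.1 • z) ≤ semi p z := le_ciSup (bdd p z) c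
  exact mul_le_mul h1 (n0_le_semi p w) (n0_nonneg p w) (apply_nonneg _ _)

theorem withSeminorms [UniformSpace A] [IsUniformAddGroup A] [IsTopologicalRing A]
    [ContinuousSMul ℝ A] {q : ℕ → Seminorm ℝ A} (hq : WithSeminorms q) :
    WithSeminorms (fun n => semi (q n)) := by
  rw [SeminormFamily.withSeminorms_iff_nhds_eq_iInf]
  apply le_antisymm
  · refine le_iInf fun i => ?_
    rw [← tendsto_iff_comap]
    have h1 : Continuous (fun z : Cx A => 2 * n0 (q i) z) := by
      have h2 : Continuous (fun z : Cx A => q i z.re) :=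
        (hq.continuous_seminorm i).comp continuous_re
      have h3 : Continuous (fun z : Cx A => q i z.im) :=
        (hq.continuous_seminorm i).comp continuous_im
      exact continuous_const.mul (h2.add h3)
    have h4 : Tendsto (fun z : Cx A => 2 * n0 (q i) z) (𝓝 0) (𝓝 0) := by
      have := h1.tendsto 0
      simpa [n0] using this
    exact squeeze_zero (fun z => apply_nonneg _ _) (fun z => semi_le _ _) h4
  · have h1 : Tendsto (re : Cx A → A) (⨅ i, comap (semi (q i)) (𝓝 0)) (𝓝 0) := by
      rw [hq.tendsto_nhds]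
      intro i ε hε
      have h2 : {z : Cx A | semi (q i) z < ε} ∈ comap (semi (q i)) (𝓝 0) :=
        ⟨Set.Iio ε, Iio_mem_nhds hε, fun z hz => hz⟩
      have h3 : ∀ᶠ z in (⨅ i, comap (semi (q i)) (𝓝 0)), semi (q i) z < ε :=
        mem_iInf_of_mem i h2
      filter_upwards [h3] with z hz
      rw [sub_zero]
      have h4 := n0_le_semi (q i) z
      have h5 := apply_nonneg (q i) z.im
      simp only [n0] at h4
      linarith
    have h1' : Tendsto (im : Cx A → A) (⨅ i, comap (semi (q i)) (𝓝 0)) (𝓝 0) := by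
      rw [hq.tendsto_nhds]
      intro i ε hε
      have h2 : {z : Cx A | semi (q i) z < ε} ∈ comap (semi (q i)) (𝓝 0) :=
        ⟨Set.Iio ε, Iio_mem_nhds hε, fun z hz => hz⟩
      have h3 : ∀ᶠ z in (⨅ i, comap (semi (q i)) (𝓝 0)), semi (q i) z < ε :=
        mem_iInf_of_mem i h2
      filter_upwards [h3] with z hz
      rw [sub_zero]
      have h4 := n0_le_semi (q i) z
      have h5 := apply_nonneg (q i) z.re
      simp only [n0] at h4
      linarith
    have h6 : Tendsto (fun z : Cx A => ((z.re, z.im) : A × A))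
        (⨅ i, comap (semi (q i)) (𝓝 0)) (𝓝 ((0, 0) : A × A)) := by
      rw [nhds_prod_eq]
      exact h1.prodMk h1'
    have h7 : Tendsto (fun z : Cx A => z) (⨅ i, comap (semi (q i)) (𝓝 0)) (𝓝 0) := h6
    exact h7

end Semi

section SS

variable {A : Type uA} [NonUnitalRing A] [Module ℝ A] [IsScalarTower ℝ A A] [SMulCommClass ℝ A A]

/-- conjugation -/
def conj (z : Cx A) : Cx A := mk z.re (-z.im)

theorem conj_mul (z w : Cx A) : conj (z * w) = conj z * conj w := by
  apply ext'
  · simp [conj]
  · simp [conj, add_comm]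

theorem conj_add (z w : Cx A) : conj (z + w) = conj z + conj w := by
  apply ext'
  · simp [conj]
  · simp [conj, add_comm]

theorem conj_conj (z : Cx A) : conj (conj z) = z := by
  apply ext'
  · simp [conj]
  · simp [conj]

theorem qr_conj {z : Cx A} (h : QR z) : QR (conj z) := by
  obtain ⟨c, h1, h2⟩ := h
  refine ⟨conj c, ?_, ?_⟩
  · rw [← conj_add, ← conj_mul, h1]
  · rw [← conj_add, ← conj_mul, h2]

theorem qr_re {t : A} (h : QR (mk t 0 : Cx A)) : QR t := by
  obtain ⟨c, h1, h2⟩ := h
  refine ⟨c.re, ?_, ?_⟩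
  · have := congrArg re h1
    simpa using this
  · have := congrArg re h2
    simpa using this

/-- The complexification of a semisimple algebra is semisimple. -/
theorem ss (h : SS A) : SS (Cx A) := by
  intro z hz
  have h0 : ∀ b, QR (z * b) := hz
  have h1 : ∀ b, QR (conj z * b) := by
    intro b
    have h2 := qr_conj (h0 (conj b))
    rwa [conj_mul, conj_conj] at h2
  have h2 : ∀ b, QR ((z + conj z) * b) := qr_add ℂ h0 h1
  have h3 : z.re + z.re = 0 := by
    apply h
    intro b
    have h4 := h2 (mk b 0)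
    have h5 : (z + conj z) * mk b 0 = mk ((z.re + z.re) * b) 0 := by
      apply ext'
      · simp [conj]
      · simp [conj]
    rw [h5] at h4
    exact qr_re h4
  have h4 : z.re = 0 := by
    have h5 : (2 : ℝ) • z.re = 0 := by rw [two_smul]; exact h3
    rcases smul_eq_zero.1 h5 with h6 | h6
    · norm_num at h6
    · exact h6
  have h5 : z.im = 0 := by
    apply h
    intro b
    have h6 := h0 (mk 0 (-b))
    have h7 : z * mk 0 (-b) = mk (z.im * b) 0 := by
      apply ext'
      · simp
      · simp [h4]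
    rw [h7] at h6
    exact qr_re h6
  exact ext' h4 h5

end SS

section Map

variable {A : Type uA} [NonUnitalRing A] [Module ℝ A]
variable {B : Type uB} [NonUnitalRing B] [Module ℝ B]

/-- the complexification of a linear map -/
def map (T : A →ₗ[ℝ] B) : Cx A →ₗ[ℂ] Cx B where
  toFun z := mk (T z.re) (T z.im)
  map_add' z w := by
    apply ext'
    · simp
    · simp
  map_smul' c z := by
    apply ext'
    · simp
    · simp

theorem map_apply (T : A →ₗ[ℝ] B) (z : Cx A) : map T z = mk (T z.re) (T z.im) := rfl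

theorem map_mul {T : A →ₗ[ℝ] B} (hmul : ∀ x y, T (x * y) = T x * T y) (z w : Cx A) :
    map T (z * w) = map T z * map T w := by
  apply ext'
  · simp [map_apply, hmul]
  · simp [map_apply, hmul]

theorem map_surjective {T : A →ₗ[ℝ] B} (h : Function.Surjective T) :
    Function.Surjective (map T) := by
  intro w
  obtain ⟨x, hx⟩ := h w.re
  obtain ⟨y, hy⟩ := h w.im
  refine ⟨mk x y, ?_⟩
  apply ext'
  · simp [map_apply, hx]
  · simp [map_apply, hy]

theorem isClosed_ker [UniformSpace A] {T : A →ₗ[ℝ] B} (h : IsClosed (LinearMap.ker T : Set A)) :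
    IsClosed (LinearMap.ker (map T) : Set (Cx A)) := by
  have h1 : (LinearMap.ker (map T) : Set (Cx A)) =
      re ⁻¹' (LinearMap.ker T : Set A) ∩ im ⁻¹' (LinearMap.ker T : Set A) := by
    ext z
    simp only [SetLike.mem_coe, LinearMap.mem_ker, Set.mem_inter_iff, Set.mem_preimage]
    constructor
    · intro hz
      exact ⟨congrArg re hz, congrArg im hz⟩
    · rintro ⟨h1, h2⟩
      exact ext' h1 h2
  rw [h1]
  exact (h.preimage continuous_re).inter (h.preimage continuous_im)

end Map

end Cx

section Real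

variable {A : Type uA} [NonUnitalRing A] [Module ℝ A] [IsScalarTower ℝ A A] [SMulCommClass ℝ A A]
  [UniformSpace A] [IsUniformAddGroup A] [IsTopologicalRing A] [ContinuousSMul ℝ A]
  [CompleteSpace A] [T2Space A] [FirstCountableTopology A]
variable {B : Type uB} [NonUnitalRing B] [Module ℝ B] [IsScalarTower ℝ B B] [SMulCommClass ℝ B B]
  [UniformSpace B] [IsUniformAddGroup B] [IsTopologicalRing B] [ContinuousSMul ℝ B]
  [CompleteSpace B] [T2Space B]

/-- Every surjective homomorphism with closed kernel from a complete metrizable real topological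
algebra onto a semisimple real Frechet algebra is continuous. -/
theorem continuous_real
    (hB : ∃ q : ℕ → Seminorm ℝ B, WithSeminorms q ∧ ∀ n x y, q n (x * y) ≤ q n x * q n y)
    (hss : SS B) (T : A →ₗ[ℝ] B) (hmul : ∀ x y, T (x * y) = T x * T y)
    (hsurj : Function.Surjective T) (hker : IsClosed (LinearMap.ker T : Set A)) :
    Continuous T := by
  obtain ⟨q, hq, hqs⟩ := hB
  have h1 : Continuous (Cx.map T) :=
    continuous_of_semisimple ⟨fun n => Cx.semi (q n), Cx.withSeminorms hq,
      fun n => Cx.semi_mul (hqs n)⟩ (Cx.ss hss) (Cx.map T) (Cx.map_mul hmul)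
      (Cx.map_surjective hsurj) (Cx.isClosed_ker hker)
  have h2 : Continuous (fun x : A => (Cx.mk x 0 : Cx A)) :=
    Cx.continuous_mk continuous_id continuous_const
  exact Cx.continuous_re.comp (h1.comp h2)

end Real

end Pool.Agent.Lib.MP_74fee8_an.U
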