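import Pool.Agent.Lib.MP_74fee8_an.U.Rep

set_option autoImplicit false

open Filter Topology

universe uA uB uC

namespace Pool.Agent.Lib.MP_74fee8_an.U

namespace Rep

variable {B : Type uB} [NonUnitalRing B] [Module ℂ B] {q : Seminorm ℂ B}

/-- Jacobson density, annihilator form. -/
theorem density (R : Rep B q) (I : Submodule ℂ B) (hI : ∀ b x, x ∈ I → b * x ∈ I)
    (hI2 : ∀ v, v ≠ 0 → ∃ a ∈ I, R.ρ a v ≠ 0) (s : Finset R.E) :
    ∀ w, (∀ a ∈ I, (∀ v ∈ s, R.ρ a v = 0) → R.ρ a w = 0) →
      w ∈ Submodule.span ℂ (s : Set R.E) := by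
  classical
  induction s using Finset.induction_on with
  | empty =>
    intro w hw
    by_cases h0 : w = 0
    · rw [h0]; exact zero_mem _
    · obtain ⟨a, ha, ha2⟩ := hI2 w h0
      exact absurd (hw a ha (by simp)) ha2
  | insert v0 s hv0 ih =>
    intro w H
    by_cases h0 : ∀ a ∈ I, (∀ v ∈ s, R.ρ a v = 0) → R.ρ a v0 = 0
    · have h1 := ih w (fun a ha has => H a ha (by
        intro v hv
        rcases Finset.mem_insert.1 hv with rfl | hv
        · exact h0 a ha has
        · exact has v hv))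
      exact Submodule.span_mono (by simp) h1
    · push Not at h0
      obtain ⟨a0, ha0, ha0s, ha0v⟩ := h0
      have hc : ∀ f, ∃ c ∈ I, (∀ v ∈ s, R.ρ c v = 0) ∧ R.ρ c v0 = f := by
        intro f
        obtain ⟨b, hb⟩ := R.simple _ ha0v f
        refine ⟨b * a0, hI _ _ ha0, ?_, ?_⟩
        · intro v hv; rw [R.map_mul, ha0s v hv, map_zero]
        · rw [R.map_mul, hb]
      choose c hcI hcs hcv using hc
      have key : ∀ a ∈ I, (∀ v ∈ s, R.ρ a v = 0) → R.ρ a w = R.ρ (c (R.ρ a v0)) w := by
        intro a ha has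
        have h1 := H (a - c (R.ρ a v0)) (I.sub_mem ha (hcI _)) (by
          intro v hv
          rcases Finset.mem_insert.1 hv with rfl | hv
          · rw [map_sub, LinearMap.sub_apply, hcv, sub_self]
          · rw [map_sub, LinearMap.sub_apply, has v hv, hcs _ v hv, sub_self])
        rw [map_sub, LinearMap.sub_apply, sub_eq_zero] at h1
        exact h1
      let d : R.E →ₗ[ℂ] R.E :=
        { toFun := fun f => R.ρ (c f) w
          map_add' := by
            intro f g
            have h1 := key (c f + c g) (I.add_mem (hcI _) (hcI _)) (by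
              intro v hv
              rw [map_add, LinearMap.add_apply, hcs _ v hv, hcs _ v hv, add_zero])
            rw [map_add, LinearMap.add_apply, LinearMap.add_apply, hcv, hcv] at h1
            exact h1.symm
          map_smul' := by
            intro z f
            have h1 := key (z • c f) (I.smul_mem _ (hcI _)) (by
              intro v hv
              rw [map_smul, LinearMap.smul_apply, hcs _ v hv, smul_zero])
            rw [map_smul, LinearMap.smul_apply, LinearMap.smul_apply, hcv] at h1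
            exact h1.symm }
      have hd : ∀ b e, d (R.ρ b e) = R.ρ b (d e) := by
        intro b e
        have h1 := key (b * c e) (hI _ _ (hcI _)) (by
          intro v hv
          rw [R.map_mul, hcs _ v hv, map_zero])
        rw [R.map_mul, R.map_mul, hcv] at h1
        exact h1.symm
      obtain ⟨z, hz⟩ := R.schur d hd
      have h1 := ih (w - z • v0) (by
        intro a ha has
        have h2 := key a ha has
        have h3 : R.ρ a w = z • R.ρ a v0 := by rw [h2]; exact hz _
        rw [map_sub, map_smul, h3, sub_self])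
      rw [Finset.coe_insert]
      have h2 : w = (w - z • v0) + z • v0 := by abel
      rw [h2]
      refine Submodule.add_mem _ (Submodule.span_mono (Set.subset_insert _ _) h1) ?_
      exact Submodule.smul_mem _ _ (Submodule.subset_span (Set.mem_insert _ _))

/-- Jacobson density, interpolation form. -/
theorem interp (R : Rep B q) (I : Submodule ℂ B) (hI : ∀ b x, x ∈ I → b * x ∈ I)
    (hI2 : ∀ v, v ≠ 0 → ∃ a ∈ I, R.ρ a v ≠ 0) {ι : Type*} [Fintype ι] (v : ι → R.E)
    (hv : LinearIndependent ℂ v) (f : ι → R.E) : ∃ a ∈ I, ∀ i, R.ρ a (v i) = f i := by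
  classical
  have h1 : ∀ i, ∃ a ∈ I, (∀ j, j ≠ i → R.ρ a (v j) = 0) ∧ R.ρ a (v i) = f i := by
    intro i
    have h2 : ¬ (∀ a ∈ I, (∀ w ∈ (Finset.univ.erase i).image v, R.ρ a w = 0) →
        R.ρ a (v i) = 0) := by
      intro hcon
      have h3 := R.density I hI hI2 _ _ hcon
      have h4 := (linearIndependent_iff_notMem_span.1 hv) i
      apply h4
      have h5 : ((Finset.univ.erase i).image v : Set R.E) = v '' (Set.univ \ {i}) := by
        rw [Finset.coe_image, Finset.coe_erase, Finset.coe_univ]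
      rwa [h5] at h3
    push Not at h2
    obtain ⟨a, ha, ha2, ha3⟩ := h2
    obtain ⟨b, hb⟩ := R.simple _ ha3 (f i)
    refine ⟨b * a, hI _ _ ha, ?_, ?_⟩
    · intro j hj
      rw [R.map_mul, ha2 (v j) (Finset.mem_image.2 ⟨j, by simp [hj], rfl⟩), map_zero]
    · rw [R.map_mul, hb]
  choose a haI ha1 ha2 using h1
  refine ⟨∑ i, a i, I.sum_mem (fun i _ => haI i), fun i => ?_⟩
  rw [map_sum, LinearMap.sum_apply, Finset.sum_eq_single i]
  · exact ha2 i
  · intro j _ hj
    exact ha1 j i hj.symm
  · intro h; exact absurd (Finset.mem_univ i) h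

theorem surj (R : Rep B q) [FiniteDimensional ℂ R.E] (I : Submodule ℂ B)
    (hI : ∀ b x, x ∈ I → b * x ∈ I)
    (hI2 : ∀ v, v ≠ 0 → ∃ a ∈ I, R.ρ a v ≠ 0) (T : R.E →ₗ[ℂ] R.E) : ∃ a ∈ I, R.ρ a = T := by
  let bs := Module.finBasis ℂ R.E
  obtain ⟨a, ha, h⟩ := R.interp I hI hI2 bs bs.linearIndependent (fun i => T (bs i))
  exact ⟨a, ha, bs.ext h⟩

/-- A two-sided ideal not contained in the kernel acts non-degenerately. -/
theorem nondeg (R : Rep B q) (I : Submodule ℂ B)
    (hI' : ∀ b x, x ∈ I → x * b ∈ I) (hI3 : ∃ a ∈ I, R.ρ a ≠ 0) :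
    ∀ v, v ≠ 0 → ∃ a ∈ I, R.ρ a v ≠ 0 := by
  intro v hv
  by_contra hcon
  push Not at hcon
  obtain ⟨a, ha, ha2⟩ := hI3
  apply ha2
  ext f
  obtain ⟨b, rfl⟩ := R.simple v hv f
  rw [← R.map_mul, hcon _ (hI' _ _ ha)]
  rfl

end Rep

end Pool.Agent.Lib.MP_74fee8_an.U
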