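import Mathlib

set_option autoImplicit false

open Filter Topology

universe uA uB uC

namespace Pool.Agent.Lib.MP_74fee8_an.U

/-- `p` is a decreasing sequence of symmetric sets which is a basis of neighbourhoods of zero, with
`p (n+1) + p (n+1) ⊆ p n`. -/
structure FB {A : Type uA} [AddCommGroup A] [TopologicalSpace A] (p : ℕ → Set A) : Prop where
  nhds : ∀ n, p n ∈ 𝓝 (0 : A)
  neg : ∀ n, ∀ x ∈ p n, -x ∈ p n
  add : ∀ n, ∀ x ∈ p (n + 1), ∀ y ∈ p (n + 1), x + y ∈ p n
  basis : ∀ U ∈ 𝓝 (0 : A), ∃ n, p n ⊆ U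

section Top

variable {A : Type uA} [AddCommGroup A] [TopologicalSpace A]

theorem FB.zero_mem {p : ℕ → Set A} (hp : FB p) (n : ℕ) : (0 : A) ∈ p n :=
  mem_of_mem_nhds (hp.nhds n)

theorem FB.succ_subset {p : ℕ → Set A} (hp : FB p) (n : ℕ) : p (n + 1) ⊆ p n := by
  intro x hx
  have h1 := hp.add n x hx 0 (hp.zero_mem _)
  rwa [add_zero] at h1

theorem FB.mono {p : ℕ → Set A} (hp : FB p) {m n : ℕ} (h : m ≤ n) : p n ⊆ p m := by
  induction n, h using Nat.le_induction with
  | base => exact subset_rfl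
  | succ n _ ih => exact (hp.succ_subset n).trans ih

theorem FB.closure_subset [IsTopologicalAddGroup A] {p : ℕ → Set A} (hp : FB p) (n : ℕ) :
    closure (p (n + 1)) ⊆ p n := by
  intro x hx
  rw [mem_closure_iff_nhds] at hx
  have h1 : {y | y - x ∈ p (n + 1)} ∈ 𝓝 x := by
    have hc : Continuous fun y : A => y - x := continuous_id.sub continuous_const
    apply hc.continuousAt.preimage_mem_nhds
    rw [sub_self]
    exact hp.nhds _
  obtain ⟨y, hy1, hy2⟩ := hx _ h1
  have h2 := hp.add n y hy2 (-(y - x)) (hp.neg _ _ hy1)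
  rwa [neg_sub, add_sub_cancel] at h2

/-- A series with terms in `p (m + i + 1)` has its partial sums in `p m`. -/
theorem FB.sum_mem {p : ℕ → Set A} (hp : FB p) (s : ℕ → A) (m : ℕ)
    (h : ∀ k, s (k + 1) - s k ∈ p (m + k + 1)) (d : ℕ) :
    ∀ j, s (j + d) - s j ∈ p (m + j) := by
  induction d with
  | zero => intro j; rw [add_zero, sub_self]; exact hp.zero_mem _
  | succ d ih =>
    intro j
    have h1 := h j
    have h2 := ih (j + 1)
    rw [show j + 1 + d = j + (d + 1) by omega, ← add_assoc] at h2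
    have h3 := hp.add _ _ h1 _ h2
    rwa [sub_add_sub_comm, add_comm (s (j + 1)), add_sub_add_right_eq_sub] at h3

theorem FB.sum_mem' {p : ℕ → Set A} (hp : FB p) (s : ℕ → A) (N : ℕ)
    (h : ∀ k, N ≤ k → s (k + 1) - s k ∈ p (k + 1)) (d : ℕ) :
    ∀ j, N ≤ j → s (j + d) - s j ∈ p j := by
  induction d with
  | zero => intro j _; rw [add_zero, sub_self]; exact hp.zero_mem _
  | succ d ih =>
    intro j hj
    have h1 := h j hj
    have h2 := ih (j + 1) (by omega)
    rw [show j + 1 + d = j + (d + 1) by omega] at h2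
    have h3 := hp.add _ _ h1 _ h2
    rwa [sub_add_sub_comm, add_comm (s (j + 1)), add_sub_add_right_eq_sub] at h3

theorem exists_FB [IsTopologicalAddGroup A] [FirstCountableTopology A] :
    ∃ p : ℕ → Set A, FB p := by
  obtain ⟨u, hu, hu2⟩ := IsTopologicalAddGroup.exists_antitone_basis_nhds_zero A
  have hun : ∀ n, u n ∈ 𝓝 (0 : A) := fun n => hu.1.mem_of_mem trivial
  refine ⟨fun n => u n ∩ {x | -x ∈ u n}, ?_, ?_, ?_, ?_⟩
  · intro n
    refine inter_mem (hun n) ?_
    have hc : Continuous fun x : A => -x := continuous_neg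
    apply hc.continuousAt.preimage_mem_nhds
    rw [neg_zero]
    exact hun n
  · rintro n x ⟨h1, h2⟩
    exact ⟨h2, by simpa using h1⟩
  · rintro n x ⟨hx1, hx2⟩ y ⟨hy1, hy2⟩
    refine ⟨hu2 n (Set.add_mem_add hx1 hy1), ?_⟩
    show -(x + y) ∈ u n
    rw [neg_add]
    exact hu2 n (Set.add_mem_add hx2 hy2)
  · intro U hU
    obtain ⟨n, -, hn⟩ := hu.1.mem_iff.1 hU
    exact ⟨n, Set.inter_subset_left.trans hn⟩

theorem FB.tendsto {p : ℕ → Set A} (hp : FB p) {z : ℕ → A} (hz : ∀ j, z j ∈ p j) :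
    Tendsto z atTop (𝓝 0) := by
  intro U hU
  obtain ⟨n, hn⟩ := hp.basis U hU
  rw [mem_map, mem_atTop_sets]
  exact ⟨n, fun j hj => hn (hp.mono hj (hz j))⟩

end Top

section Unif

variable {A : Type uA} [AddCommGroup A] [UniformSpace A] [IsUniformAddGroup A]
  [CompleteSpace A]

/-- Sequences with rapidly decreasing steps converge. -/
theorem FB.exists_lim {p : ℕ → Set A} (hp : FB p) (s : ℕ → A)
    (h : ∀ k, s (k + 1) - s k ∈ p (k + 1)) :
    ∃ x, Tendsto s atTop (𝓝 x) := by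
  apply cauchySeq_tendsto_of_complete
  rw [cauchySeq_iff_tendsto, uniformity_eq_comap_nhds_zero A, tendsto_comap_iff]
  intro U hU
  obtain ⟨n, hn⟩ := hp.basis U hU
  rw [mem_map, mem_atTop_sets]
  refine ⟨(n + 1, n + 1), ?_⟩
  rintro ⟨a, b⟩ ⟨ha, hb⟩
  simp only at ha hb
  simp only [Set.mem_preimage, Function.comp_apply, Prod.map_apply]
  apply hn
  obtain ⟨d, rfl⟩ := Nat.exists_eq_add_of_le ha
  obtain ⟨e, rfl⟩ := Nat.exists_eq_add_of_le hb
  have h1 := hp.sum_mem' s 0 (fun k _ => h k) d (n + 1) (Nat.zero_le _)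
  have h2 := hp.sum_mem' s 0 (fun k _ => h k) e (n + 1) (Nat.zero_le _)
  have h3 := hp.add n _ h2 _ (hp.neg _ _ h1)
  rwa [neg_sub, sub_add_sub_cancel] at h3

theorem FB.baireSpace {p : ℕ → Set A} (hp : FB p) : BaireSpace A := by
  have h1 : (𝓝 (0 : A)).IsCountablyGenerated := by
    apply HasCountableBasis.isCountablyGenerated (p := fun _ : ℕ => True) (s := p)
    refine ⟨⟨fun U => ⟨fun hU => ?_, ?_⟩⟩, Set.to_countable _⟩
    · obtain ⟨n, hn⟩ := hp.basis U hU
      exact ⟨n, trivial, hn⟩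
    · rintro ⟨n, -, hn⟩
      exact mem_of_superset (hp.nhds n) hn
  have h2 : (uniformity A).IsCountablyGenerated := by
    rw [uniformity_eq_comap_nhds_zero A]
    exact comap.isCountablyGenerated _ _
  infer_instance

end Unif

end Pool.Agent.Lib.MP_74fee8_an.U
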