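import Pool.Agent.Lib.MP_74fee8_an.U.LevelQN

set_option autoImplicit false

open Filter Topology

universe uA uB uC

namespace Pool.Agent.Lib.MP_74fee8_an.U

section FinSpec

variable {A : Type uA} [NonUnitalRing A] [Module ℂ A] [IsScalarTower ℂ A A] [SMulCommClass ℂ A A]
  [UniformSpace A] [IsUniformAddGroup A] [IsTopologicalRing A] [ContinuousSMul ℂ A]
  [CompleteSpace A] [T2Space A]
variable {B : Type uB} [NonUnitalRing B] [Module ℂ B] [IsScalarTower ℂ B B] [SMulCommClass ℂ B B]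
  [UniformSpace B] [IsUniformAddGroup B] [IsTopologicalRing B] [ContinuousSMul ℂ B]
  [CompleteSpace B] [T2Space B]

theorem rm_mem_sepSub {T : A →ₗ[ℂ] B} (hmul : ∀ x y, T (x * y) = T x * T y)
    (hsurj : Function.Surjective T) (u : Unitization ℂ B) {s : B} (hs : s ∈ sepSub T) :
    rm u s ∈ sepSub T := by
  rw [rm_apply]
  exact (sepSub T).add_mem ((sepSub T).smul_mem _ hs) (mul_right_mem_sepSub hmul hsurj _ hs)

/-- Every element of the separating ideal has finite spectrum at each level. -/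
theorem finite_spec {p : ℕ → Set A} (hp : FB p)
    {q : ℕ → Seminorm ℂ B} (hq : WithSeminorms q) (hqm : Monotone q)
    {T : A →ₗ[ℂ] B} (hmul : ∀ x y, T (x * y) = T x * T y) (hsurj : Function.Surjective T)
    {r : Seminorm ℂ B} (hr : Continuous r) {y : B}
    (hy : y ∈ sepSub T) :
    ∃ F : Set ℂ, F.Finite ∧
      ∀ z : ℂ, z ∉ F → LI r (algebraMap ℂ _ z - (Unitization.inr y : Unitization ℂ B)) := by
  set Y : Unitization ℂ B := Unitization.inr y with hY
  let Λ : Set ℂ := {z | ∃ s ∈ sepSub T, ∃ ε > 0, ∀ s' ∈ sepSub T,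
    ε ≤ r (s - rm (algebraMap ℂ _ z - Y) s')}
  have hΛ : Λ.Finite := by
    by_contra hinf
    have hinf' : Λ.Infinite := hinf
    let z := hinf'.natEmbedding
    let u : ℕ → Unitization ℂ B := fun n => algebraMap ℂ _ (z n : ℂ) - Y
    obtain ⟨w, hw0, hw⟩ : ∃ w : ℕ → Unitization ℂ B, w 0 = 1 ∧ ∀ n, w (n + 1) = u n * w n :=
      ⟨fun n => Nat.rec 1 (fun k x => u k * x) n, rfl, fun n => rfl⟩
    have hcomm : ∀ z1 z2 : ℂ, Commute (algebraMap ℂ (Unitization ℂ B) z1 - Y)
        (algebraMap ℂ (Unitization ℂ B) z2 - Y) := by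
      intro z1 z2
      refine Commute.sub_left (Algebra.commutes _ _) (Commute.sub_right ?_ (Commute.refl _))
      exact (Algebra.commutes z2 Y).symm
    have hwcomm : ∀ n (z' : ℂ), Commute (w n) (algebraMap ℂ (Unitization ℂ B) z' - Y) := by
      intro n
      induction n with
      | zero => intro z'; rw [hw0]; exact Commute.one_left _
      | succ n ih => intro z'; rw [hw]; exact (hcomm _ _).mul_left (ih z')
    have hdec : ∀ n (z' : ℂ), (∀ j < n, (z j : ℂ) ≠ z') → ∃ c : ℂ, c ≠ 0 ∧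
        ∃ v : Unitization ℂ B, w n = algebraMap ℂ _ c + v * (algebraMap ℂ _ z' - Y) := by
      intro n
      induction n with
      | zero => intro z' _; exact ⟨1, one_ne_zero, 0, by rw [hw0]; simp⟩
      | succ n ih =>
        intro z' hz'
        obtain ⟨c, hc, v, hv⟩ := ih z' (fun j hj => hz' j (by omega))
        refine ⟨((z n : ℂ) - z') * c, mul_ne_zero (sub_ne_zero.2 (hz' n (by omega))) hc,
          algebraMap ℂ _ c + u n * v, ?_⟩
        rw [hw, hv]
        have h1 : u n = algebraMap ℂ _ ((z n : ℂ) - z') + (algebraMap ℂ _ z' - Y) := by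
          simp only [u, map_sub]; abel
        have h2 : u n * algebraMap ℂ _ c =
            algebraMap ℂ _ (((z n : ℂ) - z') * c) + algebraMap ℂ _ c * (algebraMap ℂ _ z' - Y) := by
          rw [h1, add_mul, ← map_mul, Algebra.commutes c]
        rw [mul_add, h2, add_mul, mul_assoc]
        abel
    obtain ⟨n, hn⟩ := dcc hp hq hqm hmul hsurj hr u w hw0 hw
    obtain ⟨s0, hs0, ε0, hε0, hs0'⟩ := (z n).2
    obtain ⟨c, hc, v, hv⟩ := hdec n (z n) (fun j hj h => by
      have := z.injective (Subtype.ext h)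
      omega)
    have hcpos : 0 < ‖c‖ := norm_pos_iff.2 hc
    obtain ⟨s', hs', hlt⟩ := hn s0 hs0 (ε0 * ‖c‖) (by positivity)
    have h1 : rm (w n) s0 = c • s0 + rm (u n) (rm v s0) := by
      apply Unitization.inr_injective (R := ℂ)
      rw [inr_rm, hv, Unitization.inr_add, inr_rm, inr_rm, Unitization.inr_smul, mul_add,
        ← mul_assoc, ← Algebra.commutes, Algebra.algebraMap_eq_smul_one, smul_mul_assoc, one_mul]
    have h2 : rm (w (n + 1)) s' = rm (u n) (rm (w n) s') := by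
      rw [hw, ← (hwcomm n (z n)).eq, rm_mul]
    rw [h1, h2] at hlt
    have h3 : c • s0 + rm (u n) (rm v s0) - rm (u n) (rm (w n) s') =
        c • (s0 - rm (u n) (c⁻¹ • (rm (w n) s' - rm v s0))) := by
      rw [map_smul, smul_sub, smul_smul, mul_inv_cancel₀ hc, one_smul, map_sub]
      abel
    rw [h3, map_smul_eq_mul, mul_comm] at hlt
    have h4 := lt_of_mul_lt_mul_right hlt hcpos.le
    have h5 := hs0' (c⁻¹ • (rm (w n) s' - rm v s0)) ((sepSub T).smul_mem _
      ((sepSub T).sub_mem (rm_mem_sepSub hmul hsurj _ hs') (rm_mem_sepSub hmul hsurj _ hs0)))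
    exact absurd h4 (not_lt.2 h5)
  refine ⟨insert 0 Λ, hΛ.insert 0, fun z hz => ?_⟩
  rw [Set.mem_insert_iff, not_or] at hz
  obtain ⟨hz0, hzΛ⟩ := hz
  have hznorm : 0 < ‖z‖ := norm_pos_iff.2 hz0
  have h1 : ∀ s ∈ sepSub T, ∀ ε > 0, ∃ s' ∈ sepSub T,
      r (s - rm (algebraMap ℂ _ z - Y) s') < ε := by
    intro s hs ε hε
    by_contra hcon
    push Not at hcon
    exact hzΛ ⟨s, hs, ε, hε, hcon⟩
  obtain ⟨s', hs', hlt⟩ := h1 y hy ‖z‖ hznorm
  refine ⟨algebraMap ℂ _ z⁻¹ * (1 + Unitization.inr s'), ?_⟩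
  have h2 : algebraMap ℂ (Unitization ℂ B) z⁻¹ * (1 + Unitization.inr s') *
      (algebraMap ℂ _ z - Y) - 1 =
      z⁻¹ • Unitization.inr (rm (algebraMap ℂ _ z - Y) s' - y) := by
    have e1 : algebraMap ℂ (Unitization ℂ B) z⁻¹ * algebraMap ℂ (Unitization ℂ B) z = 1 := by
      rw [← map_mul, inv_mul_cancel₀ hz0, map_one]
    rw [Unitization.inr_sub, inr_rm, ← hY, Algebra.smul_def]
    have e2 : algebraMap ℂ (Unitization ℂ B) z⁻¹ * (1 + Unitization.inr s') *
        (algebraMap ℂ _ z - Y) - 1 =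
        (algebraMap ℂ (Unitization ℂ B) z⁻¹ * algebraMap ℂ (Unitization ℂ B) z - 1) +
        algebraMap ℂ (Unitization ℂ B) z⁻¹ *
          (Unitization.inr s' * (algebraMap ℂ _ z - Y) - Y) := by
      noncomm_ring
    rw [e2, e1, sub_self, zero_add]
  rw [h2, map_smul_eq_mul, q1_inr, norm_inv, map_sub_rev]
  rw [inv_mul_lt_iff₀ hznorm, mul_one]
  exact hlt

/-- Inside the separating ideal, level quasinilpotency is a closed condition. -/
theorem qn_closed {p : ℕ → Set A} (hp : FB p)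
    {q : ℕ → Seminorm ℂ B} (hq : WithSeminorms q) (hqm : Monotone q)
    {T : A →ₗ[ℂ] B} (hmul : ∀ x y, T (x * y) = T x * T y) (hsurj : Function.Surjective T)
    {r : Seminorm ℂ B} (hr : Continuous r) (hrs : ∀ x y, r (x * y) ≤ r x * r y) {y : B}
    (hy : y ∈ sepSub T)
    (h : ∀ ε > 0, ∃ y', r (y - y') < ε ∧ QN r (Unitization.inr y' : Unitization ℂ B)) :
    QN r (Unitization.inr y : Unitization ℂ B) := by
  obtain ⟨F, hF, hLI⟩ := finite_spec hp hq hqm hmul hsurj hr hy
  refine qn_of_approx hrs hF hLI (fun ε hε => ?_)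
  obtain ⟨y', hy', hy'2⟩ := h ε hε
  refine ⟨Unitization.inr y', ?_, hy'2⟩
  rw [← Unitization.inr_sub, q1_inr]
  exact hy'

end FinSpec

end Pool.Agent.Lib.MP_74fee8_an.U
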