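import Pool.Agent.Lib.MP_74fee8_an.U.CxSemi

set_option autoImplicit false

open Filter Topology

universe uA uB uC

namespace Pool.Agent.Lib.MP_74fee8_an.U

section Complete

variable {A : Type uA} [AddCommGroup A] [TopologicalSpace A] [IsTopologicalAddGroup A]

theorem complete_of_seq [FirstCountableTopology A]
    (h : ∀ s : ℕ → A, (∀ U ∈ 𝓝 (0 : A), ∃ N, ∀ j, N ≤ j → ∀ k, N ≤ k → s j - s k ∈ U) →
      ∃ x, Tendsto s atTop (𝓝 x)) :
    @CompleteSpace A (IsTopologicalAddGroup.rightUniformSpace A) := by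
  letI : UniformSpace A := IsTopologicalAddGroup.rightUniformSpace A
  have hU : IsUniformAddGroup A := isUniformAddGroup_of_addCommGroup
  have h2 : (uniformity A).IsCountablyGenerated := by
    rw [uniformity_eq_comap_nhds_zero A]
    exact comap.isCountablyGenerated _ _
  apply UniformSpace.complete_of_cauchySeq_tendsto
  intro u hu
  apply h
  intro U hU'
  rw [cauchySeq_iff_tendsto, uniformity_eq_comap_nhds_zero A, tendsto_comap_iff] at hu
  have h3 := hu hU'
  rw [mem_map, mem_atTop_sets] at h3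
  obtain ⟨⟨a, b⟩, hab⟩ := h3
  refine ⟨max a b, fun j hj k hk => ?_⟩
  have h4 := hab (k, j) ⟨(le_max_left _ _).trans hk, (le_max_right _ _).trans hj⟩
  simpa using h4

end Complete

section Top

variable {A : Type uA} [NonUnitalRing A] [Module ℝ A] [IsScalarTower ℝ A A] [SMulCommClass ℝ A A]
  [TopologicalSpace A] [IsTopologicalRing A] [ContinuousSMul ℝ A]
  [T2Space A] [FirstCountableTopology A]
variable {B : Type uB} [NonUnitalRing B] [Module ℝ B] [IsScalarTower ℝ B B] [SMulCommClass ℝ B B]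
  [TopologicalSpace B] [IsTopologicalRing B] [ContinuousSMul ℝ B]
  [T2Space B]

/-- Every surjective homomorphism with closed kernel from a complete metrizable real topological
algebra onto a semisimple real Frechet algebra is continuous. -/
theorem continuous_top
    (hcA : ∀ s : ℕ → A, (∀ U ∈ 𝓝 (0 : A), ∃ N, ∀ j, N ≤ j → ∀ k, N ≤ k → s j - s k ∈ U) →
      ∃ x, Tendsto s atTop (𝓝 x))
    (hcB : ∀ s : ℕ → B, (∀ U ∈ 𝓝 (0 : B), ∃ N, ∀ j, N ≤ j → ∀ k, N ≤ k → s j - s k ∈ U) →
      ∃ x, Tendsto s atTop (𝓝 x))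
    (hB : ∃ q : ℕ → Seminorm ℝ B, WithSeminorms q ∧ ∀ n x y, q n (x * y) ≤ q n x * q n y)
    (hss : SS B) (T : A →ₗ[ℝ] B) (hmul : ∀ x y, T (x * y) = T x * T y)
    (hsurj : Function.Surjective T) (hker : IsClosed (LinearMap.ker T : Set A)) :
    Continuous T := by
  obtain ⟨q, hq, hqs⟩ := hB
  have hfc : FirstCountableTopology B := hq.firstCountableTopology
  have hA2 := complete_of_seq hcA
  have hB2 := complete_of_seq hcB
  letI : UniformSpace A := IsTopologicalAddGroup.rightUniformSpace A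
  letI : UniformSpace B := IsTopologicalAddGroup.rightUniformSpace B
  have hUA : IsUniformAddGroup A := isUniformAddGroup_of_addCommGroup
  have hUB : IsUniformAddGroup B := isUniformAddGroup_of_addCommGroup
  exact continuous_real ⟨q, hq, hqs⟩ hss T hmul hsurj hker

end Top

section Inverse

variable {A : Type uA} [AddCommGroup A] [Module ℝ A]
  [TopologicalSpace A] [IsTopologicalAddGroup A] [ContinuousSMul ℝ A]
  [FirstCountableTopology A]
variable {B : Type uB} [AddCommGroup B] [Module ℝ B]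
  [TopologicalSpace B] [IsTopologicalAddGroup B] [ContinuousSMul ℝ B]
  [T2Space B] [FirstCountableTopology B]

/-- A linear map between complete metrizable spaces with a continuous left inverse is
continuous. -/
theorem continuous_of_left_inverse
    (hcA : ∀ s : ℕ → A, (∀ U ∈ 𝓝 (0 : A), ∃ N, ∀ j, N ≤ j → ∀ k, N ≤ k → s j - s k ∈ U) →
      ∃ x, Tendsto s atTop (𝓝 x))
    (hcB : ∀ s : ℕ → B, (∀ U ∈ 𝓝 (0 : B), ∃ N, ∀ j, N ≤ j → ∀ k, N ≤ k → s j - s k ∈ U) →
      ∃ x, Tendsto s atTop (𝓝 x))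
    (T : A →ₗ[ℝ] B) (S : B → A) (hS : Continuous S) (hS0 : S 0 = 0) (hST : ∀ x, S (T x) = x)
    (hinj : ∀ b, S b = 0 → b = 0) [T2Space A] :
    Continuous T := by
  have hA2 := complete_of_seq hcA
  have hB2 := complete_of_seq hcB
  letI : UniformSpace A := IsTopologicalAddGroup.rightUniformSpace A
  letI : UniformSpace B := IsTopologicalAddGroup.rightUniformSpace B
  have hUA : IsUniformAddGroup A := isUniformAddGroup_of_addCommGroup
  have hUB : IsUniformAddGroup B := isUniformAddGroup_of_addCommGroup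
  obtain ⟨p, hp⟩ := exists_FB (A := A)
  obtain ⟨w, hw⟩ := exists_FB (A := B)
  apply continuous_of_sep hp hw T
  intro b hb
  apply hinj
  have h1 := eq_of_mem_sep (T := T) (map_zero T) hS (by
    have h2 : (fun x => S (T x)) = id := by funext x; exact hST x
    rw [h2]
    exact continuous_id) hb
  rw [h1, hS0]

end Inverse

section Ring

variable {𝕜 : Type uC} [RCLike 𝕜] {A : Type uA} [NonUnitalRing A] [Module 𝕜 A]
  [TopologicalSpace A]

theorem isTopologicalRing_of_seminorms {p : ℕ → Seminorm 𝕜 A} (hp : WithSeminorms p)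
    (hps : ∀ n x y, p n (x * y) ≤ p n x * p n y) : IsTopologicalRing A := by
  have h0 : IsTopologicalAddGroup A := hp.topologicalAddGroup
  have h1 : ContinuousMul A := by
    refine ⟨?_⟩
    rw [continuous_iff_continuousAt]
    rintro ⟨a, b⟩
    rw [ContinuousAt, hp.tendsto_nhds]
    intro i ε hε
    have hc : Continuous (fun z : A × A => p i (z.1 - a) * p i (z.2 - b) + p i a * p i (z.2 - b) +
        p i (z.1 - a) * p i b) := by
      have h2 : Continuous (fun z : A × A => p i (z.1 - a)) :=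
        (hp.continuous_seminorm i).comp (continuous_fst.sub continuous_const)
      have h3 : Continuous (fun z : A × A => p i (z.2 - b)) :=
        (hp.continuous_seminorm i).comp (continuous_snd.sub continuous_const)
      exact ((h2.mul h3).add (continuous_const.mul h3)).add (h2.mul continuous_const)
    have h4 := (hc.tendsto (a, b)).eventually (Iio_mem_nhds (show
      (fun z : A × A => p i (z.1 - a) * p i (z.2 - b) + p i a * p i (z.2 - b) +
        p i (z.1 - a) * p i b) (a, b) < ε by simpa using hε))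
    filter_upwards [h4] with z hz
    have h5 : z.1 * z.2 - a * b = (z.1 - a) * (z.2 - b) + a * (z.2 - b) + (z.1 - a) * b := by
      noncomm_ring
    rw [h5]
    have h6 := map_add_le_add (p i) ((z.1 - a) * (z.2 - b) + a * (z.2 - b)) ((z.1 - a) * b)
    have h7 := map_add_le_add (p i) ((z.1 - a) * (z.2 - b)) (a * (z.2 - b))
    have h8 := hps i (z.1 - a) (z.2 - b)
    have h9 := hps i a (z.2 - b)
    have h10 := hps i (z.1 - a) b
    have hz' : p i (z.1 - a) * p i (z.2 - b) + p i a * p i (z.2 - b) + p i (z.1 - a) * p i b < ε := hz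
    linarith
  exact { }

end Ring

section Restrict

variable {𝕜 : Type uC} [RCLike 𝕜] {A : Type uA} [AddCommGroup A] [Module 𝕜 A]
  [TopologicalSpace A]

theorem withSeminorms_restrict [Module ℝ A] [IsScalarTower ℝ 𝕜 A] {p : ℕ → Seminorm 𝕜 A}
    (hp : WithSeminorms p) : WithSeminorms (fun n => (p n).restrictScalars ℝ) := by
  have h0 : IsTopologicalAddGroup A := hp.topologicalAddGroup
  rw [SeminormFamily.withSeminorms_iff_nhds_eq_iInf] at hp ⊢
  exact hp

theorem continuousSMul_restrict [Module ℝ A] [IsScalarTower ℝ 𝕜 A] [ContinuousSMul 𝕜 A] :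
    ContinuousSMul ℝ A := by
  refine ⟨?_⟩
  have h1 : (fun z : ℝ × A => z.1 • z.2) = fun z : ℝ × A => ((z.1 : 𝕜)) • z.2 := by
    funext z
    rw [RCLike.real_smul_eq_coe_smul (K := 𝕜)]
  rw [h1]
  exact (RCLike.continuous_ofReal.comp continuous_fst).smul continuous_snd

end Restrict

/-- Uniqueness of the topology. -/
theorem unique {𝕜 : Type uC} [RCLike 𝕜] {A : Type uA} [NonUnitalRing A] [Module 𝕜 A]
    [IsScalarTower 𝕜 A A] [SMulCommClass 𝕜 A A]
    (hss : Ring.jacobson (Unitization 𝕜 A) = ⊥) (τ₁ τ₂ : TopologicalSpace A)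
    (h1m : @TopologicalSpace.MetrizableSpace A τ₁)
    (h1c : ∀ s : ℕ → A, (∀ U ∈ @nhds A τ₁ 0, ∃ N, ∀ j, N ≤ j → ∀ k, N ≤ k → s j - s k ∈ U) →
      ∃ x, Tendsto s atTop (@nhds A τ₁ x))
    (h1s : ∃ p : ℕ → Seminorm 𝕜 A, @WithSeminorms 𝕜 A ℕ _ _ _ p τ₁ ∧
      ∀ n x y, p n (x * y) ≤ p n x * p n y)
    (h2m : @TopologicalSpace.MetrizableSpace A τ₂)
    (h2c : ∀ s : ℕ → A, (∀ U ∈ @nhds A τ₂ 0, ∃ N, ∀ j, N ≤ j → ∀ k, N ≤ k → s j - s k ∈ U) →
      ∃ x, Tendsto s atTop (@nhds A τ₂ x))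
    (h2r : @IsTopologicalRing A τ₂ _) (h2s : @ContinuousSMul 𝕜 A _ _ τ₂) : τ₁ = τ₂ := by
  letI : Module ℝ A := Module.compHom A (algebraMap ℝ 𝕜)
  have hrs : ∀ (r : ℝ) (a : A), r • a = (algebraMap ℝ 𝕜 r) • a := fun r a => rfl
  have hst : IsScalarTower ℝ 𝕜 A := ⟨fun r c a => by
    rw [hrs, Algebra.smul_def, mul_smul]⟩
  have hst1 : IsScalarTower ℝ A A := ⟨fun r a b => by
    simp only [smul_eq_mul]
    rw [hrs, hrs, smul_mul_assoc]⟩
  have hst2 : SMulCommClass ℝ A A := ⟨fun r a b => by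
    simp only [smul_eq_mul]
    rw [hrs, hrs, mul_smul_comm]⟩
  obtain ⟨p, hp, hps⟩ := h1s
  have hss' : SS A := ss_of_jacobson hss
  have r1 : @IsTopologicalRing A τ₁ _ := @isTopologicalRing_of_seminorms 𝕜 _ A _ _ τ₁ p hp hps
  have s1 : @ContinuousSMul 𝕜 A _ _ τ₁ := by
    let _ := τ₁
    exact WithSeminorms.continuousSMul hp
  have s1r : @ContinuousSMul ℝ A _ _ τ₁ :=
    @continuousSMul_restrict 𝕜 _ A _ _ τ₁ _ _ s1
  have s2r : @ContinuousSMul ℝ A _ _ τ₂ :=
    @continuousSMul_restrict 𝕜 _ A _ _ τ₂ _ _ h2s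
  have t1 : @T2Space A τ₁ := @TopologicalSpace.t2Space_of_metrizableSpace A τ₁ h1m
  have t2 : @T2Space A τ₂ := @TopologicalSpace.t2Space_of_metrizableSpace A τ₂ h2m
  have f1 : @FirstCountableTopology A τ₁ := by
    let _ := τ₁
    infer_instance
  have f2 : @FirstCountableTopology A τ₂ := by
    let _ := τ₂
    infer_instance
  have hp' : ∃ q : ℕ → Seminorm ℝ A, @WithSeminorms ℝ A ℕ _ _ _ q τ₁ ∧
      ∀ n x y, q n (x * y) ≤ q n x * q n y :=
    ⟨fun n => (p n).restrictScalars ℝ, @withSeminorms_restrict 𝕜 _ A _ _ τ₁ _ _ p hp, hps⟩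
  have c21 : @Continuous A A τ₂ τ₁ (LinearMap.id : A →ₗ[ℝ] A) :=
    @continuous_top A _ _ _ _ τ₂ h2r s2r t2 f2 A _ _ _ _ τ₁ r1 s1r t1 h2c h1c hp' hss'
      LinearMap.id (fun _ _ => rfl) Function.surjective_id (by
        let _ := τ₂
        have h : (LinearMap.ker (LinearMap.id : A →ₗ[ℝ] A) : Set A) = {0} := by
          rw [LinearMap.ker_id]; rfl
        rw [h]
        exact isClosed_singleton)
  have c12 : @Continuous A A τ₁ τ₂ (LinearMap.id : A →ₗ[ℝ] A) :=
    @continuous_of_left_inverse A _ _ τ₁ (@IsTopologicalRing.to_topologicalAddGroup A _ τ₁ r1) s1r f1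
      A _ _ τ₂ (@IsTopologicalRing.to_topologicalAddGroup A _ τ₂ h2r) s2r t2 f2 h1c h2c
      LinearMap.id id c21 rfl (fun _ => rfl) (fun _ h => h) t1
  exact le_antisymm (continuous_id_iff_le.1 c12) (continuous_id_iff_le.1 c21)

end Pool.Agent.Lib.MP_74fee8_an.U
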