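import Pool.Agent.Lib.MP_74fee8_an.U.Tower

set_option autoImplicit false

open Filter Topology Cardinal

universe uA uB uC

namespace Pool.Agent.Lib.MP_74fee8_an.U

theorem baire_sub {B : Type uB} [AddCommGroup B] [Module ℂ B] [UniformSpace B] [IsUniformAddGroup B]
    [CompleteSpace B] [(uniformity B).IsCountablyGenerated] (M : Submodule ℂ B)
    (hM : IsClosed (M : Set B)) (C : ℕ → Set B) (hC : ∀ n, IsClosed (C n))
    (hcov : ∀ b ∈ M, ∃ n, b ∈ C n) :
    ∃ n, ∃ b₀ ∈ M, ∃ U ∈ 𝓝 (0 : B), ∀ u ∈ U, u ∈ M → b₀ + u ∈ C n := by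
  have : CompleteSpace M := hM.completeSpace_coe
  have : (uniformity M).IsCountablyGenerated := by
    have h0 : (uniformity M) = Filter.comap (fun q : M × M => ((q.1 : B), (q.2 : B)))
        (uniformity B) := rfl
    rw [h0]
    infer_instance
  have : BaireSpace M := inferInstance
  obtain ⟨n, hn⟩ : ∃ n : ℕ, (interior ((fun x : M => (x : B)) ⁻¹' C n)).Nonempty := by
    apply nonempty_interior_of_iUnion_of_closed
    · intro n
      exact (hC n).preimage continuous_subtype_val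
    · rw [Set.eq_univ_iff_forall]
      intro x
      obtain ⟨n, hn⟩ := hcov x x.2
      exact Set.mem_iUnion.2 ⟨n, hn⟩
  obtain ⟨x0, hx0⟩ := hn
  have h1 : ((fun x : M => (x : B)) ⁻¹' C n) ∈ 𝓝 x0 := mem_interior_iff_mem_nhds.1 hx0
  rw [mem_nhds_subtype] at h1
  obtain ⟨V, hV, hVC⟩ := h1
  refine ⟨n, x0, x0.2, (fun u => (x0 : B) + u) ⁻¹' V, ?_, ?_⟩
  · apply (continuous_const_add (x0 : B)).continuousAt.preimage_mem_nhds
    rwa [add_zero]
  · intro u hu huM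
    have h2 : (⟨x0 + u, M.add_mem x0.2 huM⟩ : M) ∈ ((fun x : M => (x : B)) ⁻¹' V) := hu
    exact hVC h2

theorem exists_smul_mem {B : Type uB} [AddCommGroup B] [Module ℂ B] [TopologicalSpace B]
    [ContinuousSMul ℂ B] {U : Set B} (hU : U ∈ 𝓝 (0 : B)) (c : B) :
    ∃ z : ℂ, z ≠ 0 ∧ z • c ∈ U := by
  have h1 : Tendsto (fun z : ℂ => z • c) (𝓝 0) (𝓝 0) := by
    have : Continuous fun z : ℂ => z • c := continuous_id.smul continuous_const
    have := this.tendsto 0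
    simpa using this
  have h2 : ∀ᶠ z in 𝓝[≠] (0 : ℂ), z • c ∈ U := (h1.eventually hU).filter_mono nhdsWithin_le_nhds
  have h3 : ∀ᶠ z in 𝓝[≠] (0 : ℂ), z ≠ 0 := self_mem_nhdsWithin
  obtain ⟨z, hz1, hz2⟩ := (h3.and h2).exists
  exact ⟨z, hz1, hz2⟩

namespace Rep

variable {B : Type uB} [NonUnitalRing B] [Module ℂ B] {q : Seminorm ℂ B}

/-- any linear map can be realised on a finite set of vectors -/
theorem exists_eqOn (R : Rep B q) (P : R.E →ₗ[ℂ] R.E) (s : Set R.E) (hs : s.Finite) :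
    ∃ a, ∀ v ∈ s, R.ρ a v = P v := by
  classical
  have hfin : FiniteDimensional ℂ (Submodule.span ℂ s) :=
    FiniteDimensional.span_of_finite ℂ hs
  let bs := Module.finBasis ℂ (Submodule.span ℂ s)
  have hli : LinearIndependent ℂ (fun i => ((bs i : Submodule.span ℂ s) : R.E)) :=
    bs.linearIndependent.map' (Submodule.subtype _) (Submodule.ker_subtype _)
  obtain ⟨a, _, ha⟩ := R.interp ⊤ (fun _ _ _ => trivial) (fun v hv => by
    obtain ⟨a, ha⟩ := R.simple v hv R.e₀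
    exact ⟨a, trivial, by rw [ha]; exact R.e₀_ne⟩) _ hli (fun i => P (bs i))
  refine ⟨a, fun v hv => ?_⟩
  have h1 : (R.ρ a) ∘ₗ (Submodule.span ℂ s).subtype = P ∘ₗ (Submodule.span ℂ s).subtype :=
    bs.ext ha
  exact LinearMap.congr_fun h1 ⟨v, Submodule.subset_span hv⟩

theorem exists_large_rank (R : Rep B q) (T0 : R.E →ₗ[ℂ] R.E) (hT0 : ℵ₀ ≤ LinearMap.rank T0)
    (w : R.E) (m : ℕ) : ∃ c, R.ρ c w = 0 ∧ (m : Cardinal) ≤ LinearMap.rank (R.ρ c ∘ₗ T0) := by
  classical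
  obtain ⟨ψ, hψ⟩ : ∃ ψ : R.E →ₗ[ℂ] ℂ, ψ w • w = w := by
    by_cases hw : w = 0
    · exact ⟨0, by simp [hw]⟩
    · have h1 : ¬ ∀ φ : Module.Dual ℂ R.E, φ w = 0 := by
        rw [Module.forall_dual_apply_eq_zero_iff]
        exact hw
      push Not at h1
      obtain ⟨φ, hφ⟩ := h1
      refine ⟨(φ w)⁻¹ • φ, ?_⟩
      simp [inv_mul_cancel₀ hφ]
  let Q : R.E →ₗ[ℂ] R.E := (LinearMap.toSpanSingleton ℂ R.E w) ∘ₗ ψ
  let P : R.E →ₗ[ℂ] R.E := LinearMap.id - Q
  have hPw : P w = 0 := by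
    simp [P, Q, hψ]
  have hrank : ℵ₀ ≤ LinearMap.rank (P ∘ₗ T0) := by
    by_contra hcon
    rw [not_le] at hcon
    have h1 : T0 = P ∘ₗ T0 + Q ∘ₗ T0 := by
      ext x
      simp [P]
    have h2 : LinearMap.rank (Q ∘ₗ T0) < ℵ₀ := by
      refine lt_of_le_of_lt (LinearMap.rank_comp_le_left _ _) ?_
      have h4 : LinearMap.range Q ≤ Submodule.span ℂ {w} := by
        rintro _ ⟨x, rfl⟩
        exact Submodule.smul_mem _ _ (Submodule.mem_span_singleton_self w)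
      refine lt_of_le_of_lt (Submodule.rank_mono h4) ?_
      refine lt_of_le_of_lt (rank_span_le _) ?_
      rw [Cardinal.mk_singleton]
      exact one_lt_aleph0
    have h3 : LinearMap.rank T0 < ℵ₀ := by
      rw [h1]
      exact lt_of_le_of_lt (LinearMap.rank_add_le _ _) (Cardinal.add_lt_aleph0 hcon h2)
    exact absurd hT0 (not_le.2 h3)
  have hm : (m : Cardinal) ≤ LinearMap.rank (P ∘ₗ T0) := (natCast_lt_aleph0.le).trans hrank
  rw [LinearMap.le_rank_iff_exists_linearIndependent_finset] at hm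
  obtain ⟨s, hs, hli⟩ := hm
  obtain ⟨c, hc⟩ := R.exists_eqOn P (insert w (T0 '' (s : Set R.E)))
    ((s.finite_toSet.image _).insert _)
  refine ⟨c, ?_, ?_⟩
  · rw [hc w (Set.mem_insert _ _), hPw]
  · rw [LinearMap.le_rank_iff_exists_linearIndependent_finset]
    refine ⟨s, hs, ?_⟩
    convert hli using 2 with x
    exact hc _ (Set.mem_insert_of_mem _ ⟨x, x.2, rfl⟩)

end Rep

section FiniteDim

variable {A : Type uA} [NonUnitalRing A] [Module ℂ A] [IsScalarTower ℂ A A] [SMulCommClass ℂ A A]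
  [UniformSpace A] [IsUniformAddGroup A] [IsTopologicalRing A] [ContinuousSMul ℂ A]
  [CompleteSpace A] [T2Space A]
variable {B : Type uB} [NonUnitalRing B] [Module ℂ B] [IsScalarTower ℂ B B] [SMulCommClass ℂ B B]
  [UniformSpace B] [IsUniformAddGroup B] [IsTopologicalRing B] [ContinuousSMul ℂ B]
  [CompleteSpace B] [T2Space B]

theorem Rep.step_rank [(uniformity B).IsCountablyGenerated] {q : Seminorm ℂ B}
    (hq : Continuous q) (R : Rep B q)
    (T0 : R.E →ₗ[ℂ] R.E) (hT0 : ℵ₀ ≤ LinearMap.rank T0) (w : R.E) :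
    ∃ b, R.ρ b w = 0 ∧ ℵ₀ ≤ LinearMap.rank (R.ρ b ∘ₗ T0) := by
  by_contra hcon
  push Not at hcon
  let M : Submodule ℂ B := LinearMap.ker (R.ρ.flip w)
  have hMem : ∀ b, b ∈ M ↔ R.ρ b w = 0 := fun b => Iff.rfl
  have hM : IsClosed (M : Set B) := by
    have h1 : (M : Set B) = (fun b => R.ρ b w) ⁻¹' {0} := by
      ext b; exact hMem b
    rw [h1]
    exact isClosed_singleton.preimage (R.continuous_orbit hq w)
  let C : ℕ → Set B := fun n => {b | ¬ ((n : Cardinal) ≤ LinearMap.rank (R.ρ b ∘ₗ T0))}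
  have hC : ∀ n, IsClosed (C n) := by
    intro n
    have h1 : IsOpen {b : B | (n : Cardinal) ≤ LinearMap.rank (R.ρ b ∘ₗ T0)} := by
      have h2 : {b : B | (n : Cardinal) ≤ LinearMap.rank (R.ρ b ∘ₗ T0)} =
          ⋃ s : {s : Finset R.E // s.card = n},
            {b : B | LinearIndependent ℂ fun x : ((s : Finset R.E) : Set R.E) =>
              R.ρ b (T0 x)} := by
        ext b
        simp only [Set.mem_ofPred_eq, Set.mem_iUnion]
        rw [LinearMap.le_rank_iff_exists_linearIndependent_finset]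
        constructor
        · rintro ⟨s, hs, h⟩
          exact ⟨⟨s, hs⟩, h⟩
        · rintro ⟨⟨s, hs⟩, h⟩
          exact ⟨s, hs, h⟩
      rw [h2]
      refine isOpen_iUnion fun s => ?_
      have h3 : Continuous fun b : B => fun x : ((s : Finset R.E) : Set R.E) => R.ρ b (T0 x) :=
        continuous_pi fun x => R.continuous_orbit hq _
      exact isOpen_setOfPred_linearIndependent.preimage h3
    have h4 : C n = {b : B | (n : Cardinal) ≤ LinearMap.rank (R.ρ b ∘ₗ T0)}ᶜ := rfl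
    rw [h4]
    exact h1.isClosed_compl
  obtain ⟨n, b0, hb0, U, hU, hUC⟩ := baire_sub M hM C hC (by
    intro b hb
    have h1 := hcon b ((hMem b).1 hb)
    obtain ⟨n, hn⟩ := Cardinal.lt_aleph0.1 h1
    refine ⟨n + 1, ?_⟩
    show ¬ (((n + 1 : ℕ) : Cardinal) ≤ _)
    rw [hn, Nat.cast_le]
    omega)
  obtain ⟨c, hcw, hc⟩ := R.exists_large_rank T0 hT0 w (2 * n + 1)
  obtain ⟨z, hz, hzU⟩ := exists_smul_mem hU c
  have h1 : b0 + z • c ∈ C n := hUC _ hzU (M.smul_mem z ((hMem c).2 hcw))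
  have h2 : b0 ∈ C n := by
    have := hUC 0 (mem_of_mem_nhds hU) M.zero_mem
    rwa [add_zero] at this
  have h3 : LinearMap.rank (R.ρ (b0 + z • c) ∘ₗ T0) ≤ n := le_of_lt (not_le.1 h1)
  have h4 : LinearMap.rank (R.ρ b0 ∘ₗ T0) ≤ n := le_of_lt (not_le.1 h2)
  have h5 : R.ρ c ∘ₗ T0 = (z⁻¹ • LinearMap.id) ∘ₗ
      (R.ρ (b0 + z • c) ∘ₗ T0 + ((-1 : ℂ) • LinearMap.id) ∘ₗ (R.ρ b0 ∘ₗ T0)) := by
    ext x
    simp [smul_smul, inv_mul_cancel₀ hz]
  have h6 : LinearMap.rank (R.ρ c ∘ₗ T0) ≤ (n : Cardinal) + n := by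
    rw [h5]
    refine (LinearMap.rank_comp_le_right _ _).trans ((LinearMap.rank_add_le _ _).trans ?_)
    exact add_le_add h3 ((LinearMap.rank_comp_le_right _ _).trans h4)
  have h7 := hc.trans h6
  rw [← Nat.cast_add, Nat.cast_le] at h7
  omega

/-- Bad representations are finite-dimensional. -/
theorem finiteDimensional_of_bad {p : ℕ → Set A} (hp : FB p)
    [(uniformity B).IsCountablyGenerated]
    {q : Seminorm ℂ B} (hq : Continuous q)
    {T : A →ₗ[ℂ] B} (hmul : ∀ x y, T (x * y) = T x * T y) (hsurj : Function.Surjective T)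
    (R : Rep B q) (hbad : ∃ s ∈ sepSub T, R.ρ s ≠ 0) : FiniteDimensional ℂ R.E := by
  by_contra hinf
  have h0 : ℵ₀ ≤ LinearMap.rank (LinearMap.id : R.E →ₗ[ℂ] R.E) := by
    rw [← not_lt]
    intro hlt
    apply hinf
    rw [LinearMap.rank, LinearMap.range_id, rank_top] at hlt
    exact Module.rank_lt_aleph0_iff.1 hlt
  obtain ⟨c0, -, hc0⟩ := R.step_rank hq LinearMap.id h0 0
  rw [LinearMap.comp_id] at hc0
  have he : ∀ c : B, ℵ₀ ≤ LinearMap.rank (R.ρ c) → ∃ e : R.E, ‖e‖ ≤ 1 ∧ R.ρ c e ≠ 0 := by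
    intro c hc
    have h1 : R.ρ c ≠ 0 := by
      intro h
      rw [h, LinearMap.rank_zero] at hc
      exact absurd hc (not_le.2 aleph0_pos)
    obtain ⟨e, he⟩ : ∃ e, R.ρ c e ≠ 0 := by
      by_contra hcon
      push Not at hcon
      exact h1 (LinearMap.ext hcon)
    have he0 : e ≠ 0 := by rintro rfl; exact he (map_zero _)
    refine ⟨((‖e‖⁻¹ : ℝ) : ℂ) • e, ?_, ?_⟩
    · rw [norm_smul, Complex.norm_real, norm_inv, norm_norm,
        inv_mul_cancel₀ (norm_ne_zero_iff.2 he0)]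
    · rw [map_smul]
      refine smul_ne_zero ?_ he
      exact_mod_cast inv_ne_zero (norm_ne_zero_iff.2 he0)
  choose! e he1 he2 using he
  have hb : ∀ c : B, ℵ₀ ≤ LinearMap.rank (R.ρ c) → ∃ b : B, R.ρ b (R.ρ c (e c)) = 0 ∧
      ℵ₀ ≤ LinearMap.rank (R.ρ (b * c)) := by
    intro c hc
    obtain ⟨b, hb1, hb2⟩ := R.step_rank hq (R.ρ c) hc (R.ρ c (e c))
    refine ⟨b, hb1, ?_⟩
    have h1 : R.ρ (b * c) = R.ρ b ∘ₗ R.ρ c := by
      ext x; exact R.map_mul b c x
    rwa [h1]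
  choose! b hb1 hb2 using hb
  obtain ⟨c, hc00, hc⟩ : ∃ c : ℕ → B, c 0 = c0 ∧ ∀ n, c (n + 1) = b (c n) * c n :=
    ⟨fun n => Nat.rec c0 (fun _ x => b x * x) n, rfl, fun n => rfl⟩
  have hcr : ∀ n, ℵ₀ ≤ LinearMap.rank (R.ρ (c n)) := by
    intro n
    induction n with
    | zero => rw [hc00]; exact hc0
    | succ n ih => rw [hc]; exact hb2 _ ih
  exact no_tower hp hq hmul hsurj (fun _ => R) (fun _ => hbad) (fun n => b (c n)) c hc
    (fun n => e (c n)) (fun n => he1 _ (hcr n)) (fun n => he2 _ (hcr n)) (fun n => hb1 _ (hcr n))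

end FiniteDim

end Pool.Agent.Lib.MP_74fee8_an.U
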