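import Pool.Agent.Lib.MP_74fee8_an.U.Density

set_option autoImplicit false

open Filter Topology

universe uA uB uC

namespace Pool.Agent.Lib.MP_74fee8_an.U

/-- `L` is a maximal modular left ideal. -/
structure MaxLeft {B : Type uB} [NonUnitalRing B] [Module ℂ B] (L : Submodule ℂ B) : Prop where
  left : ∀ b x, x ∈ L → b * x ∈ L
  modular : ∃ u, ∀ b, b - b * u ∈ L
  ne_top : L ≠ ⊤
  maximal : ∀ L' : Submodule ℂ B, (∀ b x, x ∈ L' → b * x ∈ L') → L ≤ L' → L' = L ∨ L' = ⊤

/-- `L` is closed for the seminorm `q`. -/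
def QClosed {B : Type uB} [NonUnitalRing B] [Module ℂ B] (q : Seminorm ℂ B) (L : Submodule ℂ B) :
    Prop :=
  ∀ x, x ∉ L → ∃ ε > 0, ∀ l ∈ L, ε ≤ q (x - l)

section Ideal

variable {B : Type uB} [NonUnitalRing B] [Module ℂ B] 

/-- the closure of a subspace for a seminorm -/
def qcl (q : Seminorm ℂ B) (L : Submodule ℂ B) : Submodule ℂ B where
  carrier := {x | ∀ ε > 0, ∃ l ∈ L, q (x - l) < ε}
  zero_mem' := by
    intro ε hε
    exact ⟨0, L.zero_mem, by rw [sub_zero, map_zero]; exact hε⟩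
  add_mem' := by
    intro x y hx hy ε hε
    obtain ⟨l, hl, hl2⟩ := hx (ε / 2) (by positivity)
    obtain ⟨k, hk, hk2⟩ := hy (ε / 2) (by positivity)
    refine ⟨l + k, L.add_mem hl hk, ?_⟩
    rw [show x + y - (l + k) = (x - l) + (y - k) by abel]
    have := map_add_le_add q (x - l) (y - k)
    linarith
  smul_mem' := by
    intro c x hx ε hε
    obtain ⟨l, hl, hl2⟩ := hx (ε / (‖c‖ + 1)) (by positivity)
    refine ⟨c • l, L.smul_mem _ hl, ?_⟩
    rw [← smul_sub, map_smul_eq_mul]
    rw [lt_div_iff₀ (by positivity)] at hl2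
    have := apply_nonneg q (x - l)
    nlinarith [norm_nonneg c]

theorem le_qcl (q : Seminorm ℂ B) (L : Submodule ℂ B) : L ≤ qcl q L := by
  intro x hx ε hε
  exact ⟨x, hx, by rw [sub_self, map_zero]; exact hε⟩

theorem mem_qcl {q : Seminorm ℂ B} {L : Submodule ℂ B} {x : B} :
    x ∈ qcl q L ↔ ∀ ε > 0, ∃ l ∈ L, q (x - l) < ε := Iff.rfl

theorem qclosed_iff {q : Seminorm ℂ B} {L : Submodule ℂ B} : QClosed q L ↔ qcl q L = L := by
  constructor
  · intro h
    apply le_antisymm _ (le_qcl q L)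
    intro x hx
    by_contra hxL
    obtain ⟨ε, hε, h2⟩ := h x hxL
    obtain ⟨l, hl, hl2⟩ := hx ε hε
    exact absurd (h2 l hl) (not_le.2 hl2)
  · intro h x hx
    rw [← h, mem_qcl] at hx
    push Not at hx
    obtain ⟨ε, hε, h2⟩ := hx
    exact ⟨ε, hε, h2⟩

theorem qcl_left {q : Seminorm ℂ B} (hq : ∀ x y, q (x * y) ≤ q x * q y) {L : Submodule ℂ B}
    (hL : ∀ b x, x ∈ L → b * x ∈ L) : ∀ b x, x ∈ qcl q L → b * x ∈ qcl q L := by
  intro b x hx ε hε
  have hb := apply_nonneg q b
  obtain ⟨l, hl, hl2⟩ := hx (ε / (q b + 1)) (by positivity)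
  refine ⟨b * l, hL _ _ hl, ?_⟩
  rw [← mul_sub]
  rw [lt_div_iff₀ (by positivity)] at hl2
  have h1 := hq b (x - l)
  have := apply_nonneg q (x - l)
  nlinarith

theorem qcl_right {q : Seminorm ℂ B} (hq : ∀ x y, q (x * y) ≤ q x * q y) {L : Submodule ℂ B}
    (hL : ∀ b x, x ∈ L → x * b ∈ L) : ∀ b x, x ∈ qcl q L → x * b ∈ qcl q L := by
  intro b x hx ε hε
  have hb := apply_nonneg q b
  obtain ⟨l, hl, hl2⟩ := hx (ε / (q b + 1)) (by positivity)
  refine ⟨l * b, hL _ _ hl, ?_⟩
  rw [← sub_mul]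
  rw [lt_div_iff₀ (by positivity)] at hl2
  have h1 := hq (x - l) b
  have := apply_nonneg q (x - l)
  nlinarith

theorem MaxLeft.modular_notMem {L : Submodule ℂ B} (hL : MaxLeft L) {u : B}
    (hu : ∀ b, b - b * u ∈ L) : u ∉ L := by
  intro h
  apply hL.ne_top
  rw [eq_top_iff]
  intro b _
  have h1 := L.add_mem (hu b) (hL.left b u h)
  rwa [sub_add_cancel] at h1

theorem MaxLeft.qclosed {q : Seminorm ℂ B} (hq : ∀ x y, q (x * y) ≤ q x * q y)
    {L : Submodule ℂ B} (hL : MaxLeft L) (h : qcl q L ≠ ⊤) : QClosed q L := by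
  rw [qclosed_iff]
  rcases hL.maximal _ (qcl_left hq hL.left) (le_qcl q L) with h1 | h1
  · exact h1
  · exact absurd h1 h

variable [IsScalarTower ℂ B B] [SMulCommClass ℂ B B]

/-- In a maximal modular left ideal quotient every nonzero vector is cyclic. -/
theorem MaxLeft.cyclic {L : Submodule ℂ B} (hL : MaxLeft L) {b : B} (hb : b ∉ L) (c : B) :
    ∃ a, c - a * b ∈ L := by
  obtain ⟨u, hu⟩ := hL.modular
  have huL := hL.modular_notMem hu
  by_cases h1 : ∀ a, a * b ∈ L
  · exfalso
    rcases hL.maximal (L ⊔ Submodule.span ℂ {b}) (by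
      intro x y hy
      obtain ⟨l, hl, k, hk, rfl⟩ := Submodule.mem_sup.1 hy
      obtain ⟨z, rfl⟩ := Submodule.mem_span_singleton.1 hk
      rw [mul_add, mul_smul_comm]
      exact Submodule.mem_sup_left (L.add_mem (hL.left _ _ hl) (L.smul_mem _ (h1 x))))
      le_sup_left with h2 | h2
    · apply hb
      rw [← h2]
      exact Submodule.mem_sup_right (Submodule.mem_span_singleton_self b)
    · have h3 : ∀ x y, x * y ∈ L := by
        intro x y
        have hy : y ∈ L ⊔ Submodule.span ℂ {b} := by rw [h2]; trivial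
        obtain ⟨l, hl, k, hk, rfl⟩ := Submodule.mem_sup.1 hy
        obtain ⟨z, rfl⟩ := Submodule.mem_span_singleton.1 hk
        rw [mul_add, mul_smul_comm]
        exact L.add_mem (hL.left _ _ hl) (L.smul_mem _ (h1 x))
      apply huL
      have h4 := L.add_mem (hu u) (h3 u u)
      rwa [sub_add_cancel] at h4
  · push Not at h1
    obtain ⟨a0, ha0⟩ := h1
    let M : Submodule ℂ B := L ⊔ LinearMap.range ((LinearMap.mul ℂ B).flip b)
    have hM : M = ⊤ := by
      rcases hL.maximal M (by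
        intro x y hy
        obtain ⟨l, hl, k, hk, rfl⟩ := Submodule.mem_sup.1 hy
        obtain ⟨z, rfl⟩ := hk
        rw [mul_add]
        refine Submodule.add_mem _ (Submodule.mem_sup_left (hL.left _ _ hl))
          (Submodule.mem_sup_right ⟨x * z, ?_⟩)
        simp [mul_assoc]) le_sup_left with h2 | h2
      · exfalso
        apply ha0
        rw [← h2]
        exact Submodule.mem_sup_right ⟨a0, rfl⟩
      · exact h2
    have hc : c ∈ M := by rw [hM]; trivial
    obtain ⟨l, hl, k, hk, hlk⟩ := Submodule.mem_sup.1 hc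
    obtain ⟨z, rfl⟩ := hk
    refine ⟨z, ?_⟩
    rw [← hlk]
    simpa using hl

/-- The irreducible representation on `B ⧸ L`. -/
theorem exists_rep {q : Seminorm ℂ B} (hq : ∀ x y, q (x * y) ≤ q x * q y)
    {L : Submodule ℂ B} (hL : MaxLeft L) (hc : QClosed q L) :
    ∃ R : Rep B q, ∀ a, a ∈ L ↔ R.ρ a R.e₀ = 0 := by
  letI : SeminormedAddCommGroup B := AddGroupSeminorm.toSeminormedAddCommGroup q.toAddGroupSeminorm
  have hn : ∀ b : B, ‖b‖ = q b := fun b => rfl
  letI : NormedSpace ℂ B := ⟨fun a b => by rw [hn, hn, map_smul_eq_mul]⟩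
  haveI : IsClosed (L : Set B) := by
    rw [← closure_subset_iff_isClosed]
    intro x hx
    by_contra hxL
    obtain ⟨ε, hε, h2⟩ := hc x hxL
    rw [Metric.mem_closure_iff] at hx
    obtain ⟨l, hl, hl2⟩ := hx ε hε
    rw [dist_eq_norm, hn] at hl2
    exact absurd (h2 l hl) (not_le.2 hl2)
  obtain ⟨u, hu⟩ := hL.modular
  have huL := hL.modular_notMem hu
  let ρ : B →ₗ[ℂ] (B ⧸ L) →ₗ[ℂ] (B ⧸ L) :=
    { toFun := fun a => L.mapQ L (LinearMap.mul ℂ B a) (fun x hx => hL.left a x hx)
      map_add' := by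
        intro a b
        apply LinearMap.ext
        intro x
        induction x using Submodule.Quotient.induction_on with
        | H x => simp [add_mul]
      map_smul' := by
        intro c a
        apply LinearMap.ext
        intro x
        induction x using Submodule.Quotient.induction_on with
        | H x => simp [smul_mul_assoc] }
  have hρ : ∀ a x, ρ a (Submodule.Quotient.mk x) = Submodule.Quotient.mk (a * x) := fun a x => rfl
  have hue : ∀ a, (Submodule.Quotient.mk (a * u) : B ⧸ L) = Submodule.Quotient.mk a := by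
    intro a
    symm
    rw [Submodule.Quotient.eq]
    exact hu a
  refine ⟨{ E := B ⧸ L, ρ := ρ, map_mul := ?_, bound := ?_, e₀ := Submodule.Quotient.mk u,
            e₀_ne := ?_, lift := ?_, simple := ?_ }, ?_⟩
  · intro a b e
    induction e using Submodule.Quotient.induction_on with
    | H x => rw [hρ, hρ, hρ, mul_assoc]
  · intro a e
    apply le_of_forall_pos_le_add
    intro ε hε
    have ha := apply_nonneg q a
    obtain ⟨m, rfl, hm⟩ := Submodule.Quotient.norm_mk_lt e (show 0 < ε / (q a + 1) by positivity)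
    rw [hρ]
    refine (Submodule.Quotient.norm_mk_le L _).trans ?_
    rw [hn]
    refine (hq a m).trans ?_
    rw [hn] at hm
    calc q a * q m ≤ q a * (‖(Submodule.Quotient.mk m : B ⧸ L)‖ + ε / (q a + 1)) := by gcongr
      _ = q a * ‖(Submodule.Quotient.mk m : B ⧸ L)‖ + ε * (q a / (q a + 1)) := by ring
      _ ≤ q a * ‖(Submodule.Quotient.mk m : B ⧸ L)‖ + ε * 1 := by
        gcongr
        rw [div_le_one (by positivity)]
        linarith
      _ = _ := by ring
  · rwa [Ne, Submodule.Quotient.mk_eq_zero]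
  · intro f
    by_cases hf : f = 0
    · refine ⟨0, ?_, ?_⟩
      · rw [map_zero, hf]; rfl
      · rw [map_zero, hf, norm_zero, mul_zero]
    · obtain ⟨m, hm1, hm⟩ := Submodule.Quotient.norm_mk_lt f (norm_pos_iff.2 hf)
      refine ⟨m, ?_, ?_⟩
      · rw [hρ, hue, hm1]
      · rw [hn] at hm; linarith
  · intro e he f
    induction e using Submodule.Quotient.induction_on with
    | H x =>
    induction f using Submodule.Quotient.induction_on with
    | H y =>
    rw [Ne, Submodule.Quotient.mk_eq_zero] at he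
    obtain ⟨a, ha⟩ := hL.cyclic he y
    refine ⟨a, ?_⟩
    rw [hρ]
    symm
    rw [Submodule.Quotient.eq]
    exact ha
  · intro a
    show a ∈ L ↔ ρ a (Submodule.Quotient.mk u) = 0
    rw [hρ, hue, Submodule.Quotient.mk_eq_zero]

end Ideal

end Pool.Agent.Lib.MP_74fee8_an.U
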