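import Pool.Agent.Lib.MP_74fee8_an.U.Basic

set_option autoImplicit false

open Filter Topology

universe uA uB uC

namespace Pool.Agent.Lib.MP_74fee8_an.U

section Hump

variable {A : Type uA} [NonUnitalRing A] [Module ℂ A]
  [UniformSpace A] [IsUniformAddGroup A] [IsTopologicalRing A] [ContinuousSMul ℂ A]
  [CompleteSpace A] [T2Space A]

/-- `pull b j d y` is `y * b (j+d-1) * ... * b j`. -/
def pull (b : ℕ → A) : ℕ → ℕ → A → A
  | _, 0, y => y
  | j, d + 1, y => pull b (j + 1) d y * b j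

omit [Module ℂ A] [UniformSpace A] [IsUniformAddGroup A] [IsTopologicalRing A]
  [ContinuousSMul ℂ A] [CompleteSpace A] [T2Space A] in
theorem pull_mul {b c : ℕ → A} (hc : ∀ n, c (n + 1) = b n * c n) (d : ℕ) :
    ∀ (j : ℕ) (y : A), pull b j d y * c j = y * c (j + d) := by
  induction d with
  | zero => intro j y; rfl
  | succ d ih =>
    intro j y
    rw [pull, mul_assoc, ← hc, ih, show j + 1 + d = j + (d + 1) by omega]

omit [Module ℂ A] [UniformSpace A] [IsUniformAddGroup A] [IsTopologicalRing A]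
  [ContinuousSMul ℂ A] [CompleteSpace A] [T2Space A] in
theorem pull_zero (b : ℕ → A) (d : ℕ) : ∀ (j : ℕ), pull b j d (0 : A) = 0 := by
  induction d with
  | zero => intro j; rfl
  | succ d ih => intro j; rw [pull, ih, zero_mul]

omit [Module ℂ A] [IsUniformAddGroup A] [ContinuousSMul ℂ A] [CompleteSpace A] [T2Space A] in
theorem continuous_pull (b : ℕ → A) (d : ℕ) : ∀ (j : ℕ), Continuous (pull b j d) := by
  induction d with
  | zero => intro j; exact continuous_id
  | succ d ih => intro j; exact (ih (j + 1)).mul continuous_const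

/-- The gliding hump. -/
theorem hump {p : ℕ → Set A} (hp : FB p)
    (b c : ℕ → A) (hc : ∀ n, c (n + 1) = b n * c n) (N : ℕ → Seminorm ℂ A)
    (h1 : ∀ n z, N n (z * c (n + 1)) = 0)
    (h2 : ∀ n, ∀ U ∈ 𝓝 (0 : A), ∀ K : ℝ, ∃ y ∈ U, K < N n (y * c n)) :
    ∃ x : A, ∀ n : ℕ, (n : ℝ) ≤ N n x := by
  have hU : ∀ k : ℕ, {y : A | y * c k ∈ p (k + 1) ∧
      ∀ j ∈ Finset.range (k + 1), pull b j (k - j) y ∈ p (k + 1)} ∈ 𝓝 (0 : A) := by
    intro k
    have hb := hp.nhds (k + 1)
    have h3 : {y : A | y * c k ∈ p (k + 1)} ∈ 𝓝 (0 : A) := by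
      have hcont : Continuous fun y : A => y * c k := continuous_mul_const _
      have := hcont.continuousAt.preimage_mem_nhds (x := 0) (t := p (k + 1))
        (by simpa using hb)
      exact this
    have h4 : ∀ j ∈ Finset.range (k + 1),
        {y : A | pull b j (k - j) y ∈ p (k + 1)} ∈ 𝓝 (0 : A) := by
      intro j _
      have hcont : Continuous (pull b j (k - j)) := continuous_pull b _ _
      have := hcont.continuousAt.preimage_mem_nhds (x := 0) (t := p (k + 1))
        (by rw [pull_zero]; exact hb)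
      exact this
    have h5 : (⋂ j ∈ Finset.range (k + 1),
        {y : A | pull b j (k - j) y ∈ p (k + 1)}) ∈ 𝓝 (0 : A) :=
      (Filter.biInter_finset_mem _).2 h4
    filter_upwards [h3, h5] with y hy1 hy2
    exact ⟨hy1, fun j hj => by simpa using Set.mem_iInter₂.1 hy2 j hj⟩
  have hstep : ∀ (k : ℕ) (s : A), ∃ y : A, (y * c k ∈ p (k + 1) ∧
      ∀ j ∈ Finset.range (k + 1), pull b j (k - j) y ∈ p (k + 1)) ∧
      (k : ℝ) + N k s < N k (y * c k) := by
    intro k s
    obtain ⟨y, hy, hy2⟩ := h2 k _ (hU k) ((k : ℝ) + N k s)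
    exact ⟨y, hy, hy2⟩
  choose Y hY1 hY2 using hstep
  let s : ℕ → A := fun n => Nat.rec 0 (fun k s => s + Y k s * c k) n
  have hs : ∀ k, s (k + 1) = s k + Y k (s k) * c k := fun k => rfl
  obtain ⟨x, hx⟩ : ∃ x, Tendsto s atTop (𝓝 x) := by
    apply hp.exists_lim
    intro k
    rw [hs, add_sub_cancel_left]
    exact (hY1 k (s k)).1
  refine ⟨x, fun n => ?_⟩
  let t : ℕ → A := fun d => Nat.rec 0 (fun k t => t + pull b (n + 1) k
    (Y (n + 1 + k) (s (n + 1 + k)))) d
  have ht : ∀ k, t (k + 1) = t k + pull b (n + 1) k (Y (n + 1 + k) (s (n + 1 + k))) :=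
    fun k => rfl
  have ht0 : t 0 = 0 := rfl
  obtain ⟨z, hz⟩ : ∃ z, Tendsto t atTop (𝓝 z) := by
    apply hp.exists_lim
    intro k
    rw [ht, add_sub_cancel_left]
    have h3 := (hY1 (n + 1 + k) (s (n + 1 + k))).2 (n + 1) (Finset.mem_range.2 (by omega))
    rw [show n + 1 + k - (n + 1) = k by omega] at h3
    exact hp.mono (by omega) h3
  have hts : ∀ d, t d * c (n + 1) = s (n + 1 + d) - s (n + 1) := by
    intro d
    induction d with
    | zero => simp [ht0]
    | succ d ih =>
      rw [ht, add_mul, ih, pull_mul hc, ← add_assoc, hs (n + 1 + d), sub_add_eq_add_sub]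
  have hzx : z * c (n + 1) = x - s (n + 1) := by
    have h3 : Tendsto (fun d => t d * c (n + 1)) atTop (𝓝 (z * c (n + 1))) :=
      ((continuous_mul_const (c (n + 1))).tendsto z).comp hz
    have h4 : Tendsto (fun d => s (n + 1 + d) - s (n + 1)) atTop (𝓝 (x - s (n + 1))) := by
      refine Tendsto.sub_const ?_ _
      refine hx.comp ?_
      exact tendsto_atTop_mono (fun d => show d ≤ n + 1 + d by omega) tendsto_id
    refine tendsto_nhds_unique h3 ?_
    simpa only [hts] using h4
  have h3 : Y n (s n) * c n = x - s n - z * c (n + 1) := by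
    rw [hzx, hs]; abel
  have h4 := hY2 n (s n)
  rw [h3] at h4
  have h5 := map_sub_le_add (N n) (x - s n) (z * c (n + 1))
  have h6 := map_sub_le_add (N n) x (s n)
  rw [h1] at h5
  linarith

end Hump

end Pool.Agent.Lib.MP_74fee8_an.U
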