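import Pool.Agent.Lib.MP_74fee8_an.U.Trick

set_option autoImplicit false

open Filter Topology

universe uA uB uC

namespace Pool.Agent.Lib.MP_74fee8_an.U

section LevelNull

variable {A : Type uA} [NonUnitalRing A] [Module ℂ A] [IsScalarTower ℂ A A] [SMulCommClass ℂ A A]
  [UniformSpace A] [IsUniformAddGroup A] [IsTopologicalRing A] [ContinuousSMul ℂ A]
  [CompleteSpace A] [T2Space A]
variable {B : Type uB} [NonUnitalRing B] [Module ℂ B] [IsScalarTower ℂ B B] [SMulCommClass ℂ B B]
  [UniformSpace B] [IsUniformAddGroup B] [IsTopologicalRing B] [ContinuousSMul ℂ B]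
  [CompleteSpace B] [T2Space B]

/-- the semisimplicity condition of the problem -/
def SS (B : Type uB) [NonUnitalRing B] : Prop :=
  ∀ a : B, (∀ b : B, ∃ c : B, a * b + c = (a * b) * c ∧ a * b + c = c * (a * b)) → a = 0

/-- A closed left ideal of the separating ideal consisting of elements that are quasinilpotent at
level `m` is null at level `m`, if the algebra is semisimple. -/
theorem ideal_null {p : ℕ → Set A} (hp : FB p)
    {q : ℕ → Seminorm ℂ B} (hq : WithSeminorms q) (hqm : Monotone q)
    (hqs : ∀ n x y, q n (x * y) ≤ q n x * q n y)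
    {T : A →ₗ[ℂ] B} (hmul : ∀ x y, T (x * y) = T x * T y) (hsurj : Function.Surjective T)
    (hss : SS B) {K : Submodule ℂ B} (hKc : IsClosed (K : Set B))
    (hK : ∀ b x, x ∈ K → b * x ∈ K) (hKS : K ≤ sepSub T) (m : ℕ)
    (hKQ : ∀ w ∈ K, QN (q m) (Unitization.inr w : Unitization ℂ B)) :
    ∀ w ∈ K, q m w = 0 := by
  have hqc : ∀ i, Continuous (q i) := fun i => hq.continuous_seminorm i
  let P : ℕ → B → Prop := fun k t => t ∈ K ∧
    ∀ w ∈ K, QN (q (m + k)) (Unitization.inr w * (1 - Unitization.inr t) : Unitization ℂ B)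
  have hstep : ∀ k t, P k t → ∃ t', P (k + 1) t' ∧ q (m + k) (t' - t) ≤ (1 / 2 : ℝ) ^ k := by
    rintro k t ⟨ht, hQ⟩
    have hpos : (0 : ℝ) < (1 / 2) ^ k / (1 + q (m + k) t) := by
      have := apply_nonneg (q (m + k)) t
      positivity
    obtain ⟨β, hβ, hβr, hβQ⟩ := trick_step hp hq hqm hmul hsurj (hqs (m + k))
      (hqc (m + (k + 1))) (hqs (m + (k + 1))) hK hKS ht hQ hpos
    refine ⟨β + t - β * t, ⟨K.sub_mem (K.add_mem hβ ht) (hK _ _ ht), fun w hw => ?_⟩, ?_⟩
    · have h1 := hβQ w hw
      have h2 : (1 - Unitization.inr (β + t - β * t) : Unitization ℂ B) =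
          (1 - Unitization.inr β) * (1 - Unitization.inr t) := by
        rw [Unitization.inr_sub, Unitization.inr_add, Unitization.inr_mul]
        noncomm_ring
      rw [h2]
      exact h1
    · have h1 : β + t - β * t - t = β - β * t := by abel
      rw [h1]
      have hnn := apply_nonneg (q (m + k)) t
      have h2 := map_sub_le_add (q (m + k)) β (β * t)
      have h3 := hqs (m + k) β t
      rw [lt_div_iff₀ (by linarith)] at hβr
      nlinarith
  choose! g hg1 hg2 using hstep
  obtain ⟨t, ht0, ht⟩ : ∃ t : ℕ → B, t 0 = 0 ∧ ∀ n, t (n + 1) = g n (t n) :=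
    ⟨fun n => Nat.rec 0 (fun k x => g k x) n, rfl, fun n => rfl⟩
  have hP : ∀ n, P n (t n) := by
    intro n
    induction n with
    | zero =>
      rw [ht0]
      refine ⟨K.zero_mem, fun w hw => ?_⟩
      rw [Unitization.inr_zero, sub_zero, mul_one]
      exact hKQ w hw
    | succ n ih => rw [ht]; exact hg1 n _ ih
  obtain ⟨κ, hκ⟩ : ∃ κ, Tendsto t atTop (𝓝 κ) := by
    apply exists_lim hq
    intro i
    refine ⟨i, fun k hk => ?_⟩
    rw [ht]
    exact (hqm (show i ≤ m + k by omega) _).trans (hg2 k _ (hP k))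
  have hκK : κ ∈ K := hKc.mem_of_tendsto hκ (Eventually.of_forall fun n => (hP n).1)
  -- all levels
  have hall : ∀ w ∈ K, ∀ l, QN (q l) (Unitization.inr (w - w * κ) : Unitization ℂ B) := by
    intro w hw l
    refine qn_closed hp hq hqm hmul hsurj (hqc l) (hqs l)
      (hKS (K.sub_mem hw (hK _ _ hκK))) (fun ε hε => ?_)
    have h1 : Tendsto (fun k => q l (w * t k - w * κ)) atTop (𝓝 0) := by
      have h2 : Tendsto (fun k => w * t k - w * κ) atTop (𝓝 (w * κ - w * κ)) :=
        (((continuous_const_mul w).tendsto κ).comp hκ).sub_const _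
      rw [sub_self] at h2
      have h3 := ((hqc l).tendsto 0).comp h2
      rw [map_zero] at h3
      exact h3
    obtain ⟨k, hk1, hk2⟩ := ((h1.eventually (Iio_mem_nhds hε)).and (eventually_ge_atTop l)).exists
    refine ⟨w - w * t k, ?_, ?_⟩
    · have h2 : w - w * κ - (w - w * t k) = w * t k - w * κ := by abel
      rw [h2]
      exact hk1
    · have h2 := (hP k).2 w hw
      have h3 : (Unitization.inr (w - w * t k) : Unitization ℂ B) =
          Unitization.inr w * (1 - Unitization.inr (t k)) := by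
        rw [Unitization.inr_sub, Unitization.inr_mul, mul_sub, mul_one]
      rw [h3]
      exact qn_mono (hqm (show l ≤ m + k by omega)) h2
  -- `κ` is a right identity of `K`
  have hid : ∀ w ∈ K, w - w * κ = 0 := by
    intro w hw
    apply hss
    intro b
    apply quasi_inv hq
    intro l
    rw [Unitization.inr_mul]
    apply qn_mul_comm (hqs l)
    rw [← Unitization.inr_mul, mul_sub, ← mul_assoc]
    exact hall _ (hK _ _ hw) l
  have hκ0 : q m κ = 0 := by
    have h1 := q1_eq_zero_of_idem (q := q m) (hqs m) (c := (Unitization.inr κ : Unitization ℂ B)) (by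
      rw [← Unitization.inr_mul, ← Unitization.inr_sub, q1_inr, map_sub_rev, hid κ hκK, map_zero])
      (hKQ κ hκK)
    rwa [q1_inr] at h1
  intro w hw
  have h1 := hid w hw
  rw [sub_eq_zero] at h1
  apply le_antisymm _ (apply_nonneg _ _)
  rw [h1]
  refine (hqs m _ _).trans ?_
  rw [hκ0, mul_zero]

/-- If all left multiples of an element of the separating ideal are quasinilpotent at level `m`,
then they are null at level `m`. -/
theorem level_null {p : ℕ → Set A} (hp : FB p)
    {q : ℕ → Seminorm ℂ B} (hq : WithSeminorms q) (hqm : Monotone q)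
    (hqs : ∀ n x y, q n (x * y) ≤ q n x * q n y)
    {T : A →ₗ[ℂ] B} (hmul : ∀ x y, T (x * y) = T x * T y) (hsurj : Function.Surjective T)
    (hss : SS B) (m : ℕ) {x : B} (hx : x ∈ sepSub T)
    (hxQ : ∀ b, QN (q m) (Unitization.inr (b * x) : Unitization ℂ B)) :
    ∀ b, q m (b * x) = 0 := by
  have hqc : ∀ i, Continuous (q i) := fun i => hq.continuous_seminorm i
  let K0 : Submodule ℂ B := LinearMap.range ((LinearMap.mul ℂ B).flip x)
  have hK0 : ∀ w, w ∈ K0 ↔ ∃ b, b * x = w := fun w => Iff.rfl
  let K : Submodule ℂ B := K0.topologicalClosure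
  have hK0S : K0 ≤ sepSub T := by
    intro w hw
    obtain ⟨b, rfl⟩ := (hK0 w).1 hw
    exact mul_left_mem_sepSub hmul hsurj b hx
  have hKS : K ≤ sepSub T := Submodule.topologicalClosure_minimal _ hK0S (isClosed_sepSub T)
  have hKl : ∀ b w, w ∈ K → b * w ∈ K := by
    intro b w hw
    have h1 : Set.MapsTo (fun y => b * y) (K0 : Set B) (K0 : Set B) := by
      intro y hy
      obtain ⟨c, rfl⟩ := (hK0 y).1 hy
      exact (hK0 _).2 ⟨b * c, mul_assoc _ _ _⟩
    exact map_mem_closure (continuous_const_mul b) hw h1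
  have hKQ : ∀ w ∈ K, QN (q m) (Unitization.inr w : Unitization ℂ B) := by
    intro w hw
    refine qn_closed hp hq hqm hmul hsurj (hqc m) (hqs m) (hKS hw) (fun ε hε => ?_)
    have h1 : {y : B | q m (w - y) < ε} ∈ 𝓝 w := by
      have hc : Continuous fun y : B => q m (w - y) := (hqc m).comp (continuous_const.sub continuous_id)
      have h2 : (fun y : B => q m (w - y)) ⁻¹' (Set.Iio ε) ∈ 𝓝 w := by
        apply hc.continuousAt.preimage_mem_nhds
        rw [sub_self, map_zero]
        exact Iio_mem_nhds hε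
      exact h2
    obtain ⟨y, hy1, hy2⟩ := mem_closure_iff_nhds.1 hw _ h1
    obtain ⟨b, rfl⟩ := (hK0 y).1 hy2
    exact ⟨b * x, hy1, hxQ b⟩
  intro b
  apply ideal_null hp hq hqm hqs hmul hsurj hss (Submodule.isClosed_topologicalClosure K0)
    hKl hKS m hKQ
  exact Submodule.le_topologicalClosure K0 ((hK0 _).2 ⟨b, rfl⟩)

end LevelNull

end Pool.Agent.Lib.MP_74fee8_an.U
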