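import Pool.Agent.Lib.MP_74fee8_an.U.Correction

set_option autoImplicit false

open Filter Topology Cardinal

universe uA uB uC

namespace Pool.Agent.Lib.MP_74fee8_an.U

theorem continuous_of_ker {E : Type uA} {F : Type uB} [AddCommGroup E] [Module ℂ E]
    [TopologicalSpace E] [IsTopologicalAddGroup E] [ContinuousSMul ℂ E]
    [AddCommGroup F] [Module ℂ F] [TopologicalSpace F] [IsTopologicalAddGroup F]
    [ContinuousSMul ℂ F] [FiniteDimensional ℂ F] (f : E →ₗ[ℂ] F)
    (hf : IsClosed (LinearMap.ker f : Set E)) : Continuous f := by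
  have h1 : FiniteDimensional ℂ (E ⧸ LinearMap.ker f) :=
    FiniteDimensional.of_injective ((LinearMap.ker f).liftQ f le_rfl)
      (LinearMap.ker_eq_bot.1 (Submodule.ker_liftQ_eq_bot _ _ _ le_rfl))
  have h2 : IsClosed (LinearMap.ker f : Set E) := hf
  have h3 : Continuous ((LinearMap.ker f).liftQ f le_rfl) :=
    LinearMap.continuous_of_finiteDimensional _
  have h4 : Continuous (fun x : E => (LinearMap.ker f).liftQ f le_rfl (Submodule.Quotient.mk x)) :=
    h3.comp (LinearMap.ker f).continuous_mkQ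
  exact h4

section Main

variable {A : Type uA} [NonUnitalRing A] [Module ℂ A] [IsScalarTower ℂ A A] [SMulCommClass ℂ A A]
  [UniformSpace A] [IsUniformAddGroup A] [IsTopologicalRing A] [ContinuousSMul ℂ A]
  [CompleteSpace A] [T2Space A]
variable {B : Type uB} [NonUnitalRing B] [Module ℂ B] [IsScalarTower ℂ B B] [SMulCommClass ℂ B B]
  [UniformSpace B] [IsUniformAddGroup B] [IsTopologicalRing B] [ContinuousSMul ℂ B]
  [CompleteSpace B] [T2Space B]

omit [IsScalarTower ℂ B B] [SMulCommClass ℂ B B] [IsUniformAddGroup B] [ContinuousSMul ℂ B]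
  [CompleteSpace B] [T2Space B] in
theorem MaxLeft.exists_qclosed {q : ℕ → Seminorm ℂ B} (hq : WithSeminorms q) (hqm : Monotone q)
    (hqs : ∀ n x y, q n (x * y) ≤ q n x * q n y) {L : Submodule ℂ B} (hL : MaxLeft L)
    (hcl : IsClosed (L : Set B)) : ∃ m, QClosed (q m) L := by
  obtain ⟨u, hu⟩ := hL.modular
  have huL := hL.modular_notMem hu
  have h1 : {x : B | u + x ∉ L} ∈ 𝓝 (0 : B) := by
    have h2 : (fun x => u + x) ⁻¹' ((L : Set B)ᶜ) ∈ 𝓝 (0 : B) := by
      apply (continuous_const_add u).continuousAt.preimage_mem_nhds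
      rw [add_zero]
      exact hcl.isOpen_compl.mem_nhds huL
    exact h2
  obtain ⟨n, ε, hε, h⟩ := nhds_zero_basis hq hqm h1
  refine ⟨n, hL.qclosed (hqs n) (fun htop => ?_)⟩
  have h2 : u ∈ qcl (q n) L := by rw [htop]; trivial
  obtain ⟨l, hl, hl2⟩ := h2 ε hε
  have h3 := h (l - u) (by rw [map_sub_rev]; exact hl2)
  apply h3
  show u + (l - u) ∈ L
  rwa [add_sub_cancel]

/-- The separating space of an isomorphism onto a Frechet algebra whose closed maximal modular
left ideals intersect in zero is zero. -/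
theorem sep_eq_zero {p : ℕ → Set A} (hp : FB p)
    {q : ℕ → Seminorm ℂ B} (hq : WithSeminorms q) (hqm : Monotone q)
    (hqs : ∀ n x y, q n (x * y) ≤ q n x * q n y)
    {T : A →ₗ[ℂ] B} (hmul : ∀ x y, T (x * y) = T x * T y) (hsurj : Function.Surjective T)
    (hker : IsClosed (LinearMap.ker T : Set A))
    (hsep : ∀ x ∈ Sep T, x ≠ 0 →
      ∃ L : Submodule ℂ B, IsClosed (L : Set B) ∧ MaxLeft L ∧ x ∉ L) :
    ∀ s ∈ Sep T, s = 0 := by
  have hfc : FirstCountableTopology B := hq.firstCountableTopology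
  have hcg : (uniformity B).IsCountablyGenerated := IsUniformAddGroup.uniformity_countably_generated
  have hqc : ∀ i, Continuous (q i) := fun i => hq.continuous_seminorm i
  -- representations separating points
  have hrep : ∀ x ∈ Sep T, x ≠ 0 → ∃ m, ∃ R : Rep B (q m), R.ρ x ≠ 0 := by
    intro x hxS hx
    obtain ⟨L, hcl, hL, hxL⟩ := hsep x hxS hx
    obtain ⟨m, hm⟩ := hL.exists_qclosed hq hqm hqs hcl
    obtain ⟨R, hR⟩ := exists_rep (hqs m) hL hm
    refine ⟨m, R, fun h => hxL ?_⟩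
    rw [hR, h]
    rfl
  intro s hs
  by_contra hs0
  obtain ⟨m0, R0, hR0⟩ := hrep s hs hs0
  have hs' : s ∈ sepSub T := hs
  have hbad0 : ∃ s ∈ sepSub T, R0.ρ s ≠ 0 := ⟨s, hs', hR0⟩
  have hfd0 : FiniteDimensional ℂ R0.E :=
    finiteDimensional_of_bad hp (hqc m0) hmul hsurj R0 hbad0
  obtain ⟨w, hwS, hws, hwP⟩ := exists_correction hp hq hqm hqs hmul hsurj R0 hbad0 hs'
  -- the ideal `S0`
  let S0 : Submodule ℂ B :=
    { carrier := {x | x ∈ sepSub T ∧
        ∀ i P, P ∈ badKer T (q i) → P ≠ LinearMap.ker R0.ρ → x ∈ P}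
      zero_mem' := ⟨Submodule.zero_mem _, fun _ P _ _ => P.zero_mem⟩
      add_mem' := fun {a b} ha hb => ⟨Submodule.add_mem _ ha.1 hb.1,
        fun i P hP hne => P.add_mem (ha.2 i P hP hne) (hb.2 i P hP hne)⟩
      smul_mem' := fun c {a} ha => ⟨Submodule.smul_mem _ c ha.1,
        fun i P hP hne => P.smul_mem c (ha.2 i P hP hne)⟩ }
  have hS0l : ∀ b x, x ∈ S0 → b * x ∈ S0 := by
    intro b x hx
    refine ⟨mul_left_mem_sepSub hmul hsurj b hx.1, fun i P hP hne => ?_⟩
    obtain ⟨⟨R, hR⟩, _⟩ := hP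
    have h1 := hx.2 i P ⟨⟨R, hR⟩, by assumption⟩ hne
    rw [← hR] at h1 ⊢
    exact R.ker_left b x h1
  have hS0r : ∀ b x, x ∈ S0 → x * b ∈ S0 := by
    intro b x hx
    refine ⟨mul_right_mem_sepSub hmul hsurj b hx.1, fun i P hP hne => ?_⟩
    obtain ⟨⟨R, hR⟩, _⟩ := hP
    have h1 := hx.2 i P ⟨⟨R, hR⟩, by assumption⟩ hne
    rw [← hR] at h1 ⊢
    exact R.ker_right b x h1
  have hinj : ∀ x ∈ S0, R0.ρ x = 0 → x = 0 := by
    intro x hx hx0
    by_contra hne
    obtain ⟨m, R, hR⟩ := hrep x hx.1 hne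
    have hP : LinearMap.ker R.ρ ∈ badKer T (q m) := ⟨⟨R, rfl⟩, x, hx.1, hR⟩
    by_cases hPP : LinearMap.ker R.ρ = LinearMap.ker R0.ρ
    · apply hR
      have : x ∈ LinearMap.ker R.ρ := by rw [hPP]; exact hx0
      exact this
    · exact hR (hx.2 m _ hP hPP)
  have hwS0 : w ∈ S0 := ⟨hwS, hwP⟩
  have hw0 : R0.ρ w ≠ 0 := by
    intro h
    apply hR0
    rw [LinearMap.mem_ker, map_sub, h, zero_sub, neg_eq_zero] at hws
    exact hws
  obtain ⟨e, heS0, heid⟩ := R0.surj S0 hS0l (R0.nondeg S0 hS0r ⟨w, hwS0, hw0⟩) LinearMap.id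
  obtain ⟨g, hg⟩ := hsurj e
  -- finite-dimensionality of `S0` and its preimage
  have hfdS0 : FiniteDimensional ℂ S0 := by
    apply FiniteDimensional.of_injective (R0.ρ ∘ₗ S0.subtype)
    rw [injective_iff_map_eq_zero]
    intro x hx
    exact Subtype.ext (hinj x x.2 hx)
  let G : Submodule ℂ A := S0.comap T
  have hcG : Continuous (T ∘ₗ G.subtype) := by
    let f : G →ₗ[ℂ] S0 := T.restrict (p := G) (q := S0) (fun x hx => hx)
    have hf : ∀ x : G, ((f x : S0) : B) = T x := fun x => rfl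
    have hk : IsClosed (LinearMap.ker f : Set G) := by
      have h1 : (LinearMap.ker f : Set G) = (fun x : G => (x : A)) ⁻¹' (LinearMap.ker T : Set A) := by
        ext x
        simp only [SetLike.mem_coe, LinearMap.mem_ker, Set.mem_preimage]
        rw [← hf x]
        exact ⟨fun h => by rw [h]; rfl, fun h => Subtype.ext h⟩
      rw [h1]
      exact hker.preimage continuous_subtype_val
    have h2 : Continuous f := continuous_of_ker f hk
    exact continuous_subtype_val.comp h2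
  have hgx : ∀ x, g * x ∈ G := by
    intro x
    show T (g * x) ∈ S0
    rw [hmul, hg]
    exact hS0r _ _ heS0
  have hcomp : Continuous fun x => e * T x := by
    have h1 : (fun x => e * T x) = fun x => (T ∘ₗ G.subtype) ⟨g * x, hgx x⟩ := by
      funext x
      show e * T x = T (g * x)
      rw [hmul, hg]
    rw [h1]
    exact hcG.comp ((continuous_const_mul g).subtype_mk _)
  have h2 := eq_of_mem_sep (map_zero T) (continuous_const_mul e) hcomp (heS0.1 : e ∈ Sep T)
  rw [mul_zero] at h2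
  have h3 : R0.ρ (e * e) R0.e₀ = R0.e₀ := by
    rw [R0.map_mul, heid]; rfl
  rw [h2, map_zero] at h3
  exact R0.e₀_ne h3.symm

/-- Uniqueness of the Frechet algebra topology, assuming that the separating ideal is separated by
closed maximal modular left ideals. -/
theorem homeo {p : ℕ → Set A} (hp : FB p)
    {q : ℕ → Seminorm ℂ B} (hq : WithSeminorms q)
    (hqs : ∀ n x y, q n (x * y) ≤ q n x * q n y)
    (T : A →ₗ[ℂ] B) (hmul : ∀ x y, T (x * y) = T x * T y) (hsurj : Function.Surjective T)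
    (hker : IsClosed (LinearMap.ker T : Set A))
    (hsep : ∀ x ∈ Sep T, x ≠ 0 →
      ∃ L : Submodule ℂ B, IsClosed (L : Set B) ∧ MaxLeft L ∧ x ∉ L) :
    Continuous T := by
  obtain ⟨q', hq', hqm', hqs'⟩ := exists_mono q hq hqs
  have hfc : FirstCountableTopology B := hq.firstCountableTopology
  obtain ⟨w, hw⟩ := exists_FB (A := B)
  exact continuous_of_sep hp hw T
    (sep_eq_zero hp hq' hqm' hqs' hmul hsurj hker hsep)

end Main

end Pool.Agent.Lib.MP_74fee8_an.U
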