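import Pool.Agent.Lib.MP_74fee8_an.U.Basic

set_option autoImplicit false

open Filter Topology

universe uA uB uC

namespace Pool.Agent.Lib.MP_74fee8_an.U

/-- An irreducible representation of the algebra `B` on a normed space, bounded with respect to the
seminorm `q` and with a cyclic vector along which vectors lift with control of `q`. -/
structure Rep (B : Type uB) [NonUnitalRing B] [Module ℂ B] (q : Seminorm ℂ B) where
  /-- the space -/
  E : Type uB
  [ng : NormedAddCommGroup E]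
  [ns : NormedSpace ℂ E]
  /-- the action -/
  ρ : B →ₗ[ℂ] E →ₗ[ℂ] E
  map_mul : ∀ a b e, ρ (a * b) e = ρ a (ρ b e)
  bound : ∀ a e, ‖ρ a e‖ ≤ q a * ‖e‖
  /-- the cyclic vector -/
  e₀ : E
  e₀_ne : e₀ ≠ 0
  lift : ∀ f, ∃ a, ρ a e₀ = f ∧ q a ≤ 2 * ‖f‖
  simple : ∀ e, e ≠ 0 → ∀ f, ∃ a, ρ a e = f

attribute [instance] Rep.ng Rep.ns

namespace Rep

variable {B : Type uB} [NonUnitalRing B] [Module ℂ B] {q : Seminorm ℂ B}

/-- commuting maps are bounded -/
theorem bound_of_commute (R : Rep B q) (d : R.E →ₗ[ℂ] R.E)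
    (hd : ∀ b e, d (R.ρ b e) = R.ρ b (d e)) (f : R.E) : ‖d f‖ ≤ (2 * ‖d R.e₀‖) * ‖f‖ := by
  obtain ⟨a, rfl, ha⟩ := R.lift f
  rw [hd]
  refine (R.bound a _).trans ?_
  calc q a * ‖d R.e₀‖ ≤ (2 * ‖R.ρ a R.e₀‖) * ‖d R.e₀‖ := by gcongr
    _ = _ := by ring

theorem bijective_of_commute (R : Rep B q) (d : R.E →ₗ[ℂ] R.E)
    (hd : ∀ b e, d (R.ρ b e) = R.ρ b (d e)) (hd0 : d ≠ 0) : Function.Bijective d := by
  constructor
  · rw [injective_iff_map_eq_zero]
    intro e he
    by_contra hne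
    apply hd0
    ext f
    obtain ⟨a, rfl⟩ := R.simple e hne f
    rw [hd, he, map_zero]
    rfl
  · intro f
    obtain ⟨e, he⟩ : ∃ e, d e ≠ 0 := by
      by_contra hcon
      push Not at hcon
      exact hd0 (LinearMap.ext hcon)
    obtain ⟨a, ha⟩ := R.simple (d e) he f
    exact ⟨R.ρ a e, by rw [hd, ha]⟩

/-- Schur's lemma. -/
theorem schur (R : Rep B q) (d : R.E →ₗ[ℂ] R.E)
    (hd : ∀ b e, d (R.ρ b e) = R.ρ b (d e)) : ∃ z : ℂ, ∀ e, d e = z • e := by
  classical
  let C := UniformSpace.Completion R.E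
  let ι : R.E →L[ℂ] C := UniformSpace.Completion.toComplL
  have hι : DenseRange ι := UniformSpace.Completion.denseRange_coe
  have hιu : IsUniformInducing ι := UniformSpace.Completion.isUniformInducing_coe _
  have hιinj : Function.Injective ι := UniformSpace.Completion.coe_injective _
  let ext : ∀ g : R.E →ₗ[ℂ] R.E, (∀ b e, g (R.ρ b e) = R.ρ b (g e)) → (C →L[ℂ] C) :=
    fun g hg => (ι.comp (g.mkContinuous _ (R.bound_of_commute g hg))).extend ι
  have hext : ∀ g hg e, ext g hg (ι e) = ι (g e) := by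
    intro g hg e
    exact ContinuousLinearMap.extend_eq _ hι hιu e
  have hnt : Nontrivial C := ⟨⟨ι R.e₀, 0, fun h => R.e₀_ne (hιinj (by rw [h, map_zero]))⟩⟩
  obtain ⟨z, hz⟩ := spectrum.nonempty (A := C →L[ℂ] C) (ext d hd)
  refine ⟨z, ?_⟩
  by_contra hcon
  let g : R.E →ₗ[ℂ] R.E := z • LinearMap.id - d
  have hg : ∀ b e, g (R.ρ b e) = R.ρ b (g e) := by
    intro b e
    simp only [g, LinearMap.sub_apply, LinearMap.smul_apply, LinearMap.id_apply, hd, map_sub,
      map_smul]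
  have hg0 : g ≠ 0 := by
    intro h
    apply hcon
    intro e
    have h1 := LinearMap.congr_fun h e
    simp only [g, LinearMap.sub_apply, LinearMap.smul_apply, LinearMap.id_apply,
      LinearMap.zero_apply, sub_eq_zero] at h1
    exact h1.symm
  let G : R.E ≃ₗ[ℂ] R.E := LinearEquiv.ofBijective g (R.bijective_of_commute g hg hg0)
  have hGs : ∀ e, g (G.symm e) = e := fun e => G.apply_symm_apply e
  have hsG : ∀ e, G.symm (g e) = e := fun e => G.symm_apply_apply e
  have hG : ∀ b e, (G.symm : R.E →ₗ[ℂ] R.E) (R.ρ b e) = R.ρ b ((G.symm : R.E →ₗ[ℂ] R.E) e) := by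
    intro b e
    show G.symm (R.ρ b e) = R.ρ b (G.symm e)
    conv_lhs => rw [← hGs e, ← hg, hsG]
  rw [spectrum.mem_iff] at hz
  apply hz
  have h1 : ∀ (S T : C →L[ℂ] C), (∀ e, S (ι e) = T (ι e)) → S = T := by
    intro S T h
    apply ContinuousLinearMap.coeFn_injective
    apply DenseRange.equalizer hι S.continuous T.continuous
    funext e
    exact h e
  have h2 : (algebraMap ℂ (C →L[ℂ] C) z - ext d hd) = ext g hg := by
    apply h1
    intro e
    rw [hext g hg]
    have h3 : (algebraMap ℂ (C →L[ℂ] C) z) (ι e) = z • ι e := by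
      rw [Algebra.algebraMap_eq_smul_one]; rfl
    rw [sub_apply, h3, hext d hd, ← map_smul, ← map_sub]
    rfl
  rw [h2]
  refine ⟨⟨ext g hg, ext _ hG, ?_, ?_⟩, rfl⟩
  · apply h1
    intro e
    show ext g hg (ext _ hG (ι e)) = ι e
    rw [hext _ hG, hext g hg]
    exact congrArg ι (hGs e)
  · apply h1
    intro e
    show ext _ hG (ext g hg (ι e)) = ι e
    rw [hext g hg, hext _ hG]
    exact congrArg ι (hsG e)

end Rep

end Pool.Agent.Lib.MP_74fee8_an.U
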