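import Pool.Agent.Lib.MP_74fee8_an.U.SepIdeal
import Pool.Agent.Lib.MP_74fee8_an.U.Hump
import Pool.Agent.Lib.MP_74fee8_an.U.Ideal

set_option autoImplicit false

open Filter Topology

universe uA uB uC

namespace Pool.Agent.Lib.MP_74fee8_an.U

theorem continuous_of_bdd_nhds {X : Type uA} {E : Type uB} [AddCommGroup X] [Module ℂ X] [TopologicalSpace X]
    [IsTopologicalAddGroup X] [ContinuousConstSMul ℂ X] [NormedAddCommGroup E] [NormedSpace ℂ E]
    (f : X →ₗ[ℂ] E) {U : Set X} (hU : U ∈ 𝓝 (0 : X)) {K : ℝ} (h : ∀ y ∈ U, ‖f y‖ ≤ K) :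
    Continuous f := by
  have hK : 0 ≤ K := (norm_nonneg _).trans (h 0 (mem_of_mem_nhds hU))
  apply continuous_of_continuousAt_zero f
  rw [ContinuousAt, map_zero, Metric.tendsto_nhds]
  intro ε hε
  have h1 : Tendsto (fun x : X => (((K + 1) / ε : ℝ) : ℂ) • x) (𝓝 0) (𝓝 0) := by
    have := (continuous_const_smul (T := X) (((K + 1) / ε : ℝ) : ℂ)).tendsto 0
    simpa using this
  filter_upwards [h1.eventually hU] with x hx
  have h2 := h _ hx
  rw [map_smul, norm_smul, Complex.norm_real, Real.norm_of_nonneg (by positivity)] at h2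
  rw [dist_zero_right]
  rw [div_mul_eq_mul_div, div_le_iff₀ hε] at h2
  by_contra hcon
  push Not at hcon
  have h3 : (K + 1) * ε ≤ (K + 1) * ‖f x‖ := by gcongr
  nlinarith

section Tower

variable {A : Type uA} [NonUnitalRing A] [Module ℂ A] [IsScalarTower ℂ A A] [SMulCommClass ℂ A A]
  [UniformSpace A] [IsUniformAddGroup A] [IsTopologicalRing A] [ContinuousSMul ℂ A]
  [CompleteSpace A] [T2Space A]
variable {B : Type uB} [NonUnitalRing B] [Module ℂ B] [IsScalarTower ℂ B B] [SMulCommClass ℂ B B]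
  [TopologicalSpace B] [IsTopologicalRing B] [ContinuousSMul ℂ B]

omit [IsScalarTower ℂ B B] [SMulCommClass ℂ B B] in
theorem Rep.continuous_orbit {q : Seminorm ℂ B} (hq : Continuous q) (R : Rep B q) (e : R.E) :
    Continuous fun b => R.ρ b e := by
  have h1 : {b : B | q b < 1} ∈ 𝓝 (0 : B) := by
    have h2 : q ⁻¹' (Set.Iio 1) ∈ 𝓝 (0 : B) := by
      apply hq.continuousAt.preimage_mem_nhds
      rw [map_zero]
      exact Iio_mem_nhds one_pos
    exact h2
  exact continuous_of_bdd_nhds (R.ρ.flip e) h1 (K := ‖e‖) (fun y hy => by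
    refine (R.bound y e).trans ?_
    have : q y * ‖e‖ ≤ 1 * ‖e‖ := by
      apply mul_le_mul_of_nonneg_right _ (norm_nonneg _)
      exact le_of_lt hy
    linarith)

omit [IsScalarTower ℂ B B] [SMulCommClass ℂ B B] [IsScalarTower ℂ A A] [SMulCommClass ℂ A A]
  [IsUniformAddGroup A] [CompleteSpace A] [T2Space A] in
/-- A bad representation has only discontinuous orbits. -/
theorem unbounded_of_bad {q : Seminorm ℂ B} (hq : Continuous q) (R : Rep B q)
    {T : A →ₗ[ℂ] B} (hmul : ∀ x y, T (x * y) = T x * T y) (hsurj : Function.Surjective T)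
    (hbad : ∃ s ∈ sepSub T, R.ρ s ≠ 0) (e : R.E) (he : e ≠ 0) (U : Set A)
    (hU : U ∈ 𝓝 (0 : A)) (K : ℝ) : ∃ y ∈ U, K < ‖R.ρ (T y) e‖ := by
  by_contra hcon
  push Not at hcon
  obtain ⟨s, hs, hs0⟩ := hbad
  have hc : Continuous fun x => R.ρ (T x) e :=
    continuous_of_bdd_nhds ((R.ρ.flip e).comp T) hU hcon
  apply hs0
  ext f
  obtain ⟨b, rfl⟩ := R.simple e he f
  rw [← R.map_mul]
  have h1 : s * b ∈ Sep T := mul_right_mem_sepSub hmul hsurj b hs
  have h2 := eq_of_mem_sep (map_zero T) (R.continuous_orbit hq e) hc h1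
  rw [h2, map_zero]
  rfl

/-- There is no tower of annihilating elements in bad representations. -/
theorem no_tower {p : ℕ → Set A} (hp : FB p)
    {q : Seminorm ℂ B} (hq : Continuous q)
    {T : A →ₗ[ℂ] B} (hmul : ∀ x y, T (x * y) = T x * T y) (hsurj : Function.Surjective T)
    (R : ℕ → Rep B q) (hbad : ∀ n, ∃ s ∈ sepSub T, (R n).ρ s ≠ 0)
    (b c : ℕ → B) (hc : ∀ n, c (n + 1) = b n * c n) (e : ∀ n, (R n).E) (he : ∀ n, ‖e n‖ ≤ 1)
    (h0 : ∀ n, (R n).ρ (c n) (e n) ≠ 0)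
    (h1 : ∀ n, (R n).ρ (b n) ((R n).ρ (c n) (e n)) = 0) : False := by
  choose g hg using hsurj
  obtain ⟨c', hc0, hc'⟩ : ∃ c' : ℕ → A, c' 0 = g (c 0) ∧ ∀ n, c' (n + 1) = g (b n) * c' n :=
    ⟨fun n => Nat.rec (g (c 0)) (fun k x => g (b k) * x) n, rfl, fun n => rfl⟩
  have hTc : ∀ n, T (c' n) = c n := by
    intro n
    induction n with
    | zero => rw [hc0]; exact hg _
    | succ n ih => rw [hc', hmul, hg, ih, hc]
  let N : ℕ → Seminorm ℂ A := fun n =>
    (normSeminorm ℂ (R n).E).comp (((R n).ρ.flip (e n)).comp T)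
  have hN : ∀ n x, N n x = ‖(R n).ρ (T x) (e n)‖ := fun n x => rfl
  obtain ⟨x, hx⟩ := hump hp (fun n => g (b n)) c' hc' N (by
    intro n z
    rw [hN, hmul, hTc, hc, (R n).map_mul, (R n).map_mul, h1, map_zero, norm_zero]) (by
    intro n U hU K
    obtain ⟨y, hy, hy2⟩ := unbounded_of_bad hq (R n) hmul
      (fun b => ⟨g b, hg b⟩) (hbad n) _ (h0 n) U hU K
    refine ⟨y, hy, ?_⟩
    rwa [hN, hmul, hTc, (R n).map_mul])
  obtain ⟨n, hn⟩ := exists_nat_gt (q (T x))
  have h2 := hx n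
  rw [hN] at h2
  have h3 := (R n).bound (T x) (e n)
  have h4 : q (T x) * ‖e n‖ ≤ q (T x) * 1 := by
    apply mul_le_mul_of_nonneg_left (he n) (apply_nonneg _ _)
  linarith

end Tower

end Pool.Agent.Lib.MP_74fee8_an.U
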