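import Pool.Agent.Lib.MP_74fee8_an.U.FinSpec

set_option autoImplicit false

open Filter Topology

universe uA uB uC

namespace Pool.Agent.Lib.MP_74fee8_an.U

section Trick

variable {A : Type uA} [NonUnitalRing A] [Module ℂ A] [IsScalarTower ℂ A A] [SMulCommClass ℂ A A]
  [UniformSpace A] [IsUniformAddGroup A] [IsTopologicalRing A] [ContinuousSMul ℂ A]
  [CompleteSpace A] [T2Space A]
variable {B : Type uB} [NonUnitalRing B] [Module ℂ B] [IsScalarTower ℂ B B] [SMulCommClass ℂ B B]
  [UniformSpace B] [IsUniformAddGroup B] [IsTopologicalRing B] [ContinuousSMul ℂ B]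
  [CompleteSpace B] [T2Space B]

omit [UniformSpace B] [IsUniformAddGroup B] [IsTopologicalRing B] [ContinuousSMul ℂ B]
  [CompleteSpace B] [T2Space B] in
theorem LI_smul {r : Seminorm ℂ B} {u : Unitization ℂ B} {z : ℂ} (hz : z ≠ 0)
    (h : LI r (1 - z⁻¹ • u)) : LI r (algebraMap ℂ _ z - u) := by
  obtain ⟨v, hv⟩ := h
  refine ⟨z⁻¹ • v, ?_⟩
  have h1 : z⁻¹ • v * (algebraMap ℂ _ z - u) = v * (1 - z⁻¹ • u) := by
    rw [mul_sub, mul_sub, mul_one, smul_mul_assoc, smul_mul_assoc, mul_smul_comm,
      Algebra.algebraMap_eq_smul_one, mul_smul_comm, mul_one, smul_smul, inv_mul_cancel₀ hz,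
      one_smul]
  rwa [h1]

omit [UniformSpace B] [IsUniformAddGroup B] [IsTopologicalRing B] [ContinuousSMul ℂ B]
  [CompleteSpace B] [T2Space B] in
theorem inr_pow_mem {K : Submodule ℂ B} (hK : ∀ b x, x ∈ K → b * x ∈ K) {y : B} (hy : y ∈ K)
    (k : ℕ) : ∃ η ∈ K, (Unitization.inr η : Unitization ℂ B) = (Unitization.inr y) ^ (k + 1) := by
  induction k with
  | zero => exact ⟨y, hy, by simp⟩
  | succ k ih =>
    obtain ⟨η, hη, h⟩ := ih
    refine ⟨y * η, hK _ _ hη, ?_⟩
    rw [Unitization.inr_mul, h, pow_succ' _ (k + 1)]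

/-- One step of the product construction. -/
theorem trick_step {p : ℕ → Set A} (hp : FB p)
    {q : ℕ → Seminorm ℂ B} (hq : WithSeminorms q) (hqm : Monotone q)
    {T : A →ₗ[ℂ] B} (hmul : ∀ x y, T (x * y) = T x * T y) (hsurj : Function.Surjective T)
    {r r' : Seminorm ℂ B} (hrs : ∀ x y, r (x * y) ≤ r x * r y)
    (hr' : Continuous r') (hrs' : ∀ x y, r' (x * y) ≤ r' x * r' y)
    {K : Submodule ℂ B} (hK : ∀ b x, x ∈ K → b * x ∈ K) (hKS : K ≤ sepSub T) {t : B} (ht : t ∈ K)
    (hQ : ∀ w ∈ K, QN r (Unitization.inr w * (1 - Unitization.inr t) : Unitization ℂ B))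
    {ε : ℝ} (hε : 0 < ε) :
    ∃ β ∈ K, r β < ε ∧ ∀ w ∈ K, QN r' (Unitization.inr w * ((1 - Unitization.inr β) *
      (1 - Unitization.inr t)) : Unitization ℂ B) := by
  by_contra hcon
  push Not at hcon
  have hstep : ∀ β, β ∈ K ∧ r β < ε → ∃ η, η ∈ K ∧ r (η + β - η * β) < ε ∧
      ∃ s ∈ sepSub T, ∃ δ > 0, ∀ s' ∈ sepSub T,
        δ ≤ r' (rm ((1 - Unitization.inr β) * (1 - Unitization.inr t)) s -
          rm ((1 - Unitization.inr η) * ((1 - Unitization.inr β) * (1 - Unitization.inr t))) s') := by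
    rintro β ⟨hβ, hrβ⟩
    obtain ⟨w, hw, hwQ⟩ := hcon β hβ hrβ
    set T' : Unitization ℂ B := (1 - Unitization.inr β) * (1 - Unitization.inr t) with hT'
    have h1 : ∃ z : ℂ, z ≠ 0 ∧ ¬ LI r' (algebraMap ℂ _ z - Unitization.inr w * T') := by
      by_contra hno
      push Not at hno
      exact hwQ (qn_of_LI hrs' hno)
    obtain ⟨z, hz, hzLI⟩ := h1
    set w1 : B := z⁻¹ • w with hw1
    have hw1K : w1 ∈ K := K.smul_mem _ hw
    set X : Unitization ℂ B := Unitization.inr w1 * T' with hX
    have hXLI : ¬ LI r' (1 - X) := by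
      intro h
      apply hzLI
      apply LI_smul hz
      rw [hX, hw1, Unitization.inr_smul, smul_mul_assoc] at h
      exact h
    -- the element `y = T' w1`
    set y : B := w1 - (β + t - β * t) * w1 with hy
    have hyK : y ∈ K := K.sub_mem hw1K (hK _ _ hw1K)
    have hyT : (Unitization.inr y : Unitization ℂ B) = T' * Unitization.inr w1 := by
      rw [hy, hT', Unitization.inr_sub, Unitization.inr_mul, Unitization.inr_sub,
        Unitization.inr_add, Unitization.inr_mul]
      noncomm_ring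
    have hXQ : QN r X := by
      have h2 := hQ (w1 - w1 * β) (K.sub_mem hw1K (hK _ _ hβ))
      have h3 : X = Unitization.inr (w1 - w1 * β) * (1 - Unitization.inr t) := by
        rw [hX, hT', Unitization.inr_sub, Unitization.inr_mul]
        noncomm_ring
      rwa [h3]
    have hyQ : QN r (Unitization.inr y : Unitization ℂ B) := by
      rw [hyT]; exact qn_mul_comm hrs hXQ
    obtain ⟨N, hN⟩ := hyQ (1 / 2) (by norm_num)
    have hrβ0 : 0 ≤ r β := apply_nonneg r β
    obtain ⟨M, hM⟩ := exists_pow_lt_of_lt_one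
      (show (0 : ℝ) < (ε - r β) / (1 + r β) from div_pos (by linarith) (by linarith))
      (show (1 / 2 : ℝ) < 1 by norm_num)
    obtain ⟨η, hηK, hη⟩ := inr_pow_mem hK hyK (max N M)
    have hrη : r η ≤ (1 / 2 : ℝ) ^ M := by
      have h2 := hN (max N M + 1) (by have := le_max_left N M; omega)
      rw [← hη, q1_inr] at h2
      refine h2.trans ?_
      exact pow_le_pow_of_le_one (by norm_num) (by norm_num)
        (by have := le_max_right N M; omega)
    refine ⟨η, hηK, ?_, w1, hKS hw1K, 1, one_pos, ?_⟩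
    · have h2 := map_sub_le_add r (η + β) (η * β)
      have h3 := map_add_le_add r η β
      have h4 := hrs η β
      rw [lt_div_iff₀ (by linarith)] at hM
      have h5 : r η * (1 + r β) ≤ (1 / 2 : ℝ) ^ M * (1 + r β) :=
        mul_le_mul_of_nonneg_right hrη (by linarith)
      nlinarith
    · intro s' hs'
      by_contra hlt
      push Not at hlt
      apply hXLI
      set G : Unitization ℂ B := ∑ i ∈ Finset.range (max N M + 1), (Unitization.inr y) ^ i with hG
      refine ⟨1 + Unitization.inr s' * G * T', ?_⟩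
      have e1 : G * (1 - Unitization.inr y) = 1 - Unitization.inr η := by
        rw [hG, geom_sum_mul_neg, hη]
      have e2 : (1 - Unitization.inr y) * T' = T' * (1 - X) := by
        rw [hyT, hX]; noncomm_ring
      have e3 : (1 - Unitization.inr η) * T' = G * T' * (1 - X) := by
        rw [← e1, mul_assoc, e2, ← mul_assoc]
      have e4 : (1 + Unitization.inr s' * G * T') * (1 - X) - 1 =
          -Unitization.inr (rm T' w1 - rm ((1 - Unitization.inr η) * T') s') := by
        have e5 : (1 + Unitization.inr s' * G * T') * (1 - X) =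
            (1 - X) + Unitization.inr s' * (G * T' * (1 - X)) := by
          rw [add_mul, one_mul]
          simp only [mul_assoc]
        rw [Unitization.inr_sub, inr_rm, inr_rm, e3, ← hX, e5]
        abel
      rw [e4, map_neg_eq_map, q1_inr]
      exact hlt
  choose! η hη1 hη2 hη3 using hstep
  obtain ⟨β, hβ0, hβ⟩ : ∃ β : ℕ → B, β 0 = 0 ∧
      ∀ n, β (n + 1) = η (β n) + β n - η (β n) * β n :=
    ⟨fun n => Nat.rec 0 (fun _ x => η x + x - η x * x) n, rfl, fun n => rfl⟩
  have hinv : ∀ n, β n ∈ K ∧ r (β n) < ε := by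
    intro n
    induction n with
    | zero => rw [hβ0]; exact ⟨K.zero_mem, by rw [map_zero]; exact hε⟩
    | succ n ih =>
      rw [hβ]
      exact ⟨K.sub_mem (K.add_mem (hη1 _ ih) ih.1) (hK _ _ ih.1), hη2 _ ih⟩
  have hrt : Continuous (r'.comp (rm (1 - Unitization.inr t))) :=
    hr'.comp (continuous_rm _)
  obtain ⟨n, hn⟩ := dcc hp hq hqm hmul hsurj hrt
    (fun n => 1 - Unitization.inr (η (β n))) (fun n => 1 - Unitization.inr (β n))
    (by simp [hβ0]) (by
      intro n
      simp only [hβ, Unitization.inr_sub, Unitization.inr_add, Unitization.inr_mul]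
      noncomm_ring)
  obtain ⟨s, hs, δ, hδ, hsδ⟩ := hη3 _ (hinv n)
  obtain ⟨s', hs', hlt⟩ := hn s hs δ hδ
  have h1 := hsδ s' hs'
  have h2 : (r'.comp (rm (1 - Unitization.inr t)))
      (rm (1 - Unitization.inr (β n)) s - rm (1 - Unitization.inr (β (n + 1))) s') =
      r' (rm ((1 - Unitization.inr (β n)) * (1 - Unitization.inr t)) s -
          rm ((1 - Unitization.inr (η (β n))) * ((1 - Unitization.inr (β n)) *
            (1 - Unitization.inr t))) s') := by
    rw [Seminorm.comp_apply, map_sub, ← rm_mul, ← rm_mul]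
    congr 3
    rw [← mul_assoc]
    congr 2
    rw [hβ, Unitization.inr_sub, Unitization.inr_add, Unitization.inr_mul]
    noncomm_ring
  rw [h2] at hlt
  exact absurd h1 (not_le.2 hlt)

omit [T2Space B] in
/-- quasi-inverses of elements that are quasinilpotent at all levels -/
theorem quasi_inv [T2Space B] {q : ℕ → Seminorm ℂ B} (hq : WithSeminorms q) {y : B}
    (h : ∀ l, QN (q l) (Unitization.inr y : Unitization ℂ B)) :
    ∃ c, y + c = y * c ∧ y + c = c * y := by
  obtain ⟨G, hG0, hG⟩ : ∃ G : ℕ → B, G 0 = 0 ∧ ∀ n, G (n + 1) = y + y * G n :=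
    ⟨fun n => Nat.rec 0 (fun _ x => y + y * x) n, rfl, fun n => rfl⟩
  have hd : ∀ n, (Unitization.inr (G (n + 1) - G n) : Unitization ℂ B) =
      (Unitization.inr y) ^ (n + 1) := by
    intro n
    induction n with
    | zero => rw [hG, hG0]; simp
    | succ n ih =>
      have h1 : G (n + 1 + 1) - G (n + 1) = y * (G (n + 1) - G n) := by
        rw [hG (n + 1)]
        conv_lhs => rw [hG n]
        rw [mul_sub, hG n]
        abel
      rw [h1, Unitization.inr_mul, ih, pow_succ' _ (n + 1)]
  have hcomm : ∀ n, G (n + 1) = y + G n * y := by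
    intro n
    induction n with
    | zero => rw [hG, hG0]; simp
    | succ n ih =>
      rw [hG (n + 1)]
      conv_lhs => rw [ih]
      rw [hG n, mul_add, add_mul, ← mul_assoc]
  obtain ⟨g, hg⟩ : ∃ g, Tendsto G atTop (𝓝 g) := by
    apply exists_lim hq
    intro i
    obtain ⟨N, hN⟩ := h i (1 / 2) (by norm_num)
    refine ⟨N, fun k hk => ?_⟩
    have h1 := hN (k + 1) (by omega)
    rw [← hd, q1_inr] at h1
    refine h1.trans ?_
    exact pow_le_pow_of_le_one (by norm_num) (by norm_num) (by omega)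
  have hg1 : Tendsto (fun n => G (n + 1)) atTop (𝓝 g) := hg.comp (tendsto_add_atTop_nat 1)
  have e1 : g = y + y * g := by
    refine tendsto_nhds_unique hg1 ?_
    have : Tendsto (fun n => y + y * G n) atTop (𝓝 (y + y * g)) :=
      tendsto_const_nhds.add (((continuous_const_mul y).tendsto g).comp hg)
    simpa only [hG] using this
  have e2 : g = y + g * y := by
    refine tendsto_nhds_unique hg1 ?_
    have : Tendsto (fun n => y + G n * y) atTop (𝓝 (y + g * y)) :=
      tendsto_const_nhds.add (((continuous_mul_const y).tendsto g).comp hg)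
    simpa only [hcomm] using this
  refine ⟨-g, ?_, ?_⟩
  · rw [mul_neg]
    nth_rewrite 1 [e1]
    abel
  · rw [neg_mul]
    nth_rewrite 1 [e2]
    abel

end Trick

end Pool.Agent.Lib.MP_74fee8_an.U
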